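import Mathlib

set_option autoImplicit false

/-!
# Short gaps with index in a sparse set: combinatorics

A finite set `P` of points with weights, ordered by an injective key.  The copies of the points are numbered from `1`
to the total weight; short gaps whose number lies in a set without two elements at distance at most two are charged
to multiple points and to pairs of neighbouring simple points.
-/

namespace Pool.Agent.Q32.Gap

open Finset

section

variable {β α : Type*} [LinearOrder α] (P : Finset β) (key : β → α) (w : β → ℕ)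

/-- the weight of the points before `z` -/
def sb (z : β) : ℕ := ∑ u ∈ P.filter (fun u => key u < key z), w u

/-- the copy number `k` belongs to `z` -/
def blk (z : β) (k : ℕ) : Prop := sb P key w z < k ∧ k ≤ sb P key w z + w z

variable {P key w}

theorem sb_le {z u : β} (hz : z ∈ P) (h : key z < key u) : sb P key w z + w z ≤ sb P key w u := by
  classical
  unfold sb
  have h1 : z ∉ P.filter (fun v => key v < key z) := by simp
  have h2 : insert z (P.filter (fun v => key v < key z)) ⊆ P.filter (fun v => key v < key u) := by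
    intro v hv
    rw [mem_insert] at hv
    rw [mem_filter]
    rcases hv with rfl | hv
    · exact ⟨hz, h⟩
    · rw [mem_filter] at hv
      exact ⟨hv.1, hv.2.trans h⟩
  calc _ = ∑ v ∈ insert z (P.filter (fun v => key v < key z)), w v := by
        rw [sum_insert h1]; ring
    _ ≤ _ := sum_le_sum_of_subset h2

theorem blk_unique (hinj : ∀ u ∈ P, ∀ v ∈ P, key u = key v → u = v) {z u : β} (hz : z ∈ P) (hu : u ∈ P)
    {k : ℕ} (h1 : blk P key w z k) (h2 : blk P key w u k) : z = u := by
  rcases lt_trichotomy (key z) (key u) with h | h | h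
  · have := sb_le (w := w) hz h
    have a := h1.2
    have b := h2.1
    omega
  · exact hinj z hz u hu h
  · have := sb_le (w := w) hu h
    have a := h2.2
    have b := h1.1
    omega

theorem sum_le_key (hinj : ∀ u ∈ P, ∀ v ∈ P, key u = key v → u = v) {z : β} (hz : z ∈ P) :
    ∑ u ∈ P.filter (fun u => key u ≤ key z), w u = sb P key w z + w z := by
  classical
  have h : P.filter (fun u => key u ≤ key z) = insert z (P.filter (fun u => key u < key z)) := by
    ext u
    rw [mem_insert, mem_filter, mem_filter]
    constructor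
    · rintro ⟨h1, h2⟩
      rcases h2.lt_or_eq with h3 | h3
      · exact Or.inr ⟨h1, h3⟩
      · exact Or.inl (hinj u h1 z hz h3)
    · rintro (rfl | ⟨h1, h2⟩)
      · exact ⟨hz, le_rfl⟩
      · exact ⟨h1, h2.le⟩
  rw [h, sum_insert (by simp)]
  unfold sb
  ring

theorem exists_blk (hinj : ∀ u ∈ P, ∀ v ∈ P, key u = key v → u = v) {k : ℕ} (h1 : 1 ≤ k)
    (h2 : k ≤ ∑ u ∈ P, w u) : ∃ z ∈ P, blk P key w z k := by
  classical
  set S := P.filter (fun z => sb P key w z < k) with hS
  have hPne : P.Nonempty := by
    rw [nonempty_iff_ne_empty]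
    rintro rfl
    rw [sum_empty] at h2
    omega
  have hSne : S.Nonempty := by
    obtain ⟨z, hz, hmin⟩ := P.exists_min_image key hPne
    refine ⟨z, ?_⟩
    rw [hS, mem_filter]
    refine ⟨hz, ?_⟩
    have : P.filter (fun u => key u < key z) = ∅ := by
      rw [filter_eq_empty_iff]
      intro u hu
      exact not_lt.2 (hmin u hu)
    unfold sb
    rw [this, sum_empty]
    omega
  obtain ⟨z, hz, hmax⟩ := S.exists_max_image key hSne
  rw [hS, mem_filter] at hz
  refine ⟨z, hz.1, hz.2, ?_⟩
  by_contra hcon
  push Not at hcon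
  have hsum := sum_le_key (w := w) hinj hz.1
  -- points after `z`
  set R := P.filter (fun u => key z < key u) with hR
  by_cases hRe : R = ∅
  · have h4 : P.filter (fun u => key u ≤ key z) = P := by
      rw [filter_eq_self]
      intro u hu
      by_contra hlt
      push Not at hlt
      have : u ∈ R := by rw [hR, mem_filter]; exact ⟨hu, hlt⟩
      rw [hRe] at this
      simp at this
    rw [h4] at hsum
    omega
  · obtain ⟨u, hu, hmin⟩ := R.exists_min_image key (nonempty_iff_ne_empty.2 hRe)
    rw [hR, mem_filter] at hu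
    have h5 : P.filter (fun v => key v < key u) = P.filter (fun v => key v ≤ key z) := by
      ext v
      rw [mem_filter, mem_filter]
      refine and_congr_right fun hv => ⟨fun h => ?_, fun h => h.trans_lt hu.2⟩
      by_contra hlt
      push Not at hlt
      have : v ∈ R := by rw [hR, mem_filter]; exact ⟨hv, hlt⟩
      exact absurd (hmin v this) (not_le.2 h)
    have h6 : sb P key w u = sb P key w z + w z := by
      unfold sb
      rw [h5, hsum]
      rfl
    have h7 : u ∈ S := by
      rw [hS, mem_filter]
      exact ⟨hu.1, by omega⟩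
    exact absurd (hmax u h7) (not_le.2 hu.2)

/-- the numbers `j` such that the copies `j` and `j + 1` belong to the same point -/
def inner : Finset ℕ := P.biUnion fun z => Ioo (sb P key w z) (sb P key w z + w z)

theorem inner_card (hinj : ∀ u ∈ P, ∀ v ∈ P, key u = key v → u = v) (hw : ∀ u ∈ P, 1 ≤ w u) :
    (inner (P := P) (key := key) (w := w)).card + P.card = ∑ u ∈ P, w u := by
  classical
  unfold inner
  rw [card_biUnion]
  · rw [card_eq_sum_ones, ← sum_add_distrib]
    refine sum_congr rfl fun u hu => ?_
    rw [Nat.card_Ioo]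
    have := hw u hu
    omega
  · intro u hu v hv huv
    simp only [Function.onFun]
    rw [disjoint_left]
    intro j hj hj2
    rw [mem_Ioo] at hj hj2
    exact huv (blk_unique (w := w) hinj hu hv ⟨hj.1, hj.2.le⟩ ⟨hj2.1, hj2.2.le⟩)

/-- **the charging argument** -/
theorem charge [Nonempty β] (x : β → ℝ) (hx : ∀ u ∈ P, ∀ v ∈ P, key u < key v → x u ≤ x v)
    (hinj : ∀ u ∈ P, ∀ v ∈ P, key u = key v → u = v) (hw : ∀ u ∈ P, 1 ≤ w u) (d : ℝ)
    (Bd : Finset ℕ) (hsep : ∀ a ∈ Bd, ∀ b ∈ Bd, a < b → a + 3 ≤ b)
    (h1 : ∀ k ∈ Bd, 1 ≤ k ∧ k + 1 ≤ ∑ u ∈ P, w u)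
    (h2 : ∀ k ∈ Bd, ∀ u ∈ P, ∀ v ∈ P, blk P key w u k → blk P key w v (k + 1) → x v - x u < d) :
    ∃ π : β → β, (∀ z ∈ P, ∀ u ∈ P, π z = π u → z = u ∨ (w z = 1 ∧ w u = 1 ∧ |x z - x u| < d)) ∧
      ∀ I : Finset β, (∀ a ∈ I, ∃ z ∈ P, π z = a) → I.card + Bd.card ≤ ∑ u ∈ P, w u := by
  classical
  have hex : ∀ k : ℕ, 1 ≤ k → k ≤ ∑ u ∈ P, w u → ∃ z ∈ P, blk P key w z k :=
    fun k a b => exists_blk hinj a b
  choose! p hpP hpb using hex
  have hu : ∀ {z u : β}, z ∈ P → u ∈ P → ∀ {k : ℕ}, blk P key w z k → blk P key w u k → z = u :=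
    fun hz hu _ a b => blk_unique hinj hz hu a b
  -- the block of a point which starts at `k`
  have hstart : ∀ k : ℕ, 1 ≤ k → k + 1 ≤ ∑ u ∈ P, w u → p k ≠ p (k + 1) →
      sb P key w (p (k + 1)) = k ∧ sb P key w (p k) + w (p k) = k := by
    intro k hk1 hk2 hne
    have a := hpb k hk1 (by omega)
    have b := hpb (k + 1) (by omega) hk2
    have aP := hpP k hk1 (by omega)
    have bP := hpP (k + 1) (by omega) hk2
    constructor
    · by_contra h
      have h3 : sb P key w (p (k + 1)) < k := by
        have := b.1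
        omega
      exact hne (hu aP bP a ⟨h3, by have := b.2; omega⟩)
    · by_contra h
      have h3 : k + 1 ≤ sb P key w (p k) + w (p k) := by
        have := a.2
        omega
      exact hne (hu aP bP ⟨by have := a.1; omega, h3⟩ b)
  set B := Bd.filter (fun k => p k ≠ p (k + 1) ∧ w (p k) = 1 ∧ w (p (k + 1)) = 1) with hB
  have hBm : ∀ k ∈ B, k ∈ Bd ∧ p k ≠ p (k + 1) ∧ w (p k) = 1 ∧ w (p (k + 1)) = 1 :=
    fun k hk => by rwa [hB, mem_filter] at hk
  -- the other short gaps
  have hch : ∀ k ∈ Bd \ B, ∃ j ∈ inner (P := P) (key := key) (w := w), k ≤ j + 1 ∧ j ≤ k + 1 := by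
    intro k hk
    rw [mem_sdiff] at hk
    obtain ⟨hkB, hkn⟩ := hk
    obtain ⟨hk1, hk2⟩ := h1 k hkB
    have a := hpb k hk1 (by omega)
    have b := hpb (k + 1) (by omega) hk2
    have aP := hpP k hk1 (by omega)
    have bP := hpP (k + 1) (by omega) hk2
    by_cases hne : p k = p (k + 1)
    · refine ⟨k, ?_, by omega, by omega⟩
      unfold inner
      rw [mem_biUnion]
      refine ⟨p k, aP, ?_⟩
      rw [mem_Ioo]
      refine ⟨a.1, ?_⟩
      have := b.2
      rw [← hne] at this
      omega
    · obtain ⟨c1, c2⟩ := hstart k hk1 hk2 hne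
      by_cases hw2 : w (p (k + 1)) = 1
      · have hw1 : w (p k) ≠ 1 := fun h => hkn (by
          rw [hB, mem_filter]
          exact ⟨hkB, hne, h, hw2⟩)
        have := hw _ aP
        refine ⟨k - 1, ?_, by omega, by omega⟩
        unfold inner
        rw [mem_biUnion]
        refine ⟨p k, aP, ?_⟩
        rw [mem_Ioo]
        omega
      · have := hw _ bP
        refine ⟨k + 1, ?_, by omega, by omega⟩
        unfold inner
        rw [mem_biUnion]
        refine ⟨p (k + 1), bP, ?_⟩
        rw [mem_Ioo]
        omega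
  choose! f hf1 hf2 hf3 using hch
  have hcard1 : (Bd \ B).card ≤ (inner (P := P) (key := key) (w := w)).card := by
    refine card_le_card_of_injOn f (fun k hk => hf1 k hk) ?_
    intro a ha b hb hab
    have a1 := hf2 a ha
    have a2 := hf3 a ha
    have b1 := hf2 b hb
    have b2 := hf3 b hb
    have ha' := (mem_sdiff.1 ha).1
    have hb' := (mem_sdiff.1 hb).1
    rcases lt_trichotomy a b with h | h | h
    · have := hsep a ha' b hb' h
      omega
    · exact h
    · have := hsep b hb' a ha' h
      omega
  have hin := inner_card (w := w) hinj hw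
  have hsb : ∀ z ∈ P, ∀ u ∈ P, sb P key w z = sb P key w u → z = u := by
    intro z hz u hu h
    rcases lt_trichotomy (key z) (key u) with h3 | h3 | h3
    · have := sb_le (w := w) hz h3
      have := hw z hz
      omega
    · exact hinj z hz u hu h3
    · have := sb_le (w := w) hu h3
      have := hw u hu
      omega
  -- the right element of a pair
  have hright : ∀ z ∈ P, sb P key w z ∈ B → z = p (sb P key w z + 1) := by
    intro z hz h
    obtain ⟨h3, -, -, -⟩ := hBm _ h
    obtain ⟨h4, h5⟩ := h1 _ h3
    refine hu hz (hpP _ (by omega) h5) (k := sb P key w z + 1) ⟨by omega, ?_⟩ (hpb _ (by omega) h5)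
    have := hw z hz
    omega
  have hleft : ∀ k ∈ B, p k ∈ P ∧ sb P key w (p k) ∉ B := by
    intro k hk
    obtain ⟨h3, h4, h5, h6⟩ := hBm _ hk
    obtain ⟨h7, h8⟩ := h1 _ h3
    obtain ⟨c1, c2⟩ := hstart k h7 h8 h4
    refine ⟨hpP k h7 (by omega), fun hcon => ?_⟩
    have h9 := (hBm _ hcon).1
    have := hsep _ h9 k h3 (by omega)
    omega
  refine ⟨fun z => if sb P key w z ∈ B then p (sb P key w z) else z, ?_, ?_⟩
  · intro z hz u hu' h
    simp only at h
    have hpair : ∀ z ∈ P, ∀ u ∈ P, sb P key w z ∈ B → u = p (sb P key w z) →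
        w z = 1 ∧ w u = 1 ∧ |x z - x u| < d := by
      intro z hz u hu' hzB huz
      obtain ⟨h3, h4, h5, h6⟩ := hBm _ hzB
      obtain ⟨h7, h8⟩ := h1 _ h3
      have hz2 := hright z hz hzB
      have hlt : key u < key z := by
        rcases lt_trichotomy (key z) (key u) with h9 | h9 | h9
        · have := sb_le (w := w) hz h9
          have h10 := (hpb _ h7 (by omega)).1
          rw [← huz] at h10
          have := hw z hz
          omega
        · exfalso
          have h10 := hinj z hz u hu' h9
          apply h4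
          rw [← huz, ← hz2, h10]
        · exact h9
      refine ⟨by rw [hz2]; exact h6, by rw [huz]; exact h5, ?_⟩
      have a1 := hx u hu' z hz hlt
      have a2 := h2 _ h3 u hu' z hz (by
        rw [huz]
        exact hpb _ h7 (by omega)) (by
        have h10 := hpb _ (by omega) h8
        rw [← hz2] at h10
        exact h10)
      rw [abs_of_nonneg (by linarith)]
      exact a2
    by_cases hzB : sb P key w z ∈ B
    · by_cases huB : sb P key w u ∈ B
      · left
        rw [if_pos hzB, if_pos huB] at h
        obtain ⟨h3, h4, h5, h6⟩ := hBm _ hzB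
        obtain ⟨h7, h8⟩ := h1 _ h3
        obtain ⟨h3', h4', h5', h6'⟩ := hBm _ huB
        obtain ⟨h7', h8'⟩ := h1 _ h3'
        have a := hpb _ h7 (by omega)
        have b := hpb _ h7' (by omega)
        rw [← h] at b
        have a1 := a.1
        have a2 := a.2
        have b1 := b.1
        have b2 := b.2
        rw [h5] at a2 b2
        exact hsb z hz u hu' (by omega)
      · rw [if_pos hzB, if_neg huB] at h
        right
        exact hpair z hz u hu' hzB h.symm
    · by_cases huB : sb P key w u ∈ B
      · rw [if_neg hzB, if_pos huB] at h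
        right
        obtain ⟨a1, a2, a3⟩ := hpair u hu' z hz huB h
        exact ⟨a2, a1, by rwa [abs_sub_comm]⟩
      · rw [if_neg hzB, if_neg huB] at h
        exact Or.inl h
  · intro I hI
    set R := P.filter (fun z => sb P key w z ∈ B) with hR
    have hIs : I ⊆ P \ R := by
      intro a ha
      obtain ⟨z, hz, hza⟩ := hI a ha
      simp only at hza
      rw [mem_sdiff, hR, mem_filter]
      split_ifs at hza with hzB
      · obtain ⟨h3, h4⟩ := hleft _ hzB
        rw [hza] at h3 h4
        exact ⟨h3, fun h => h4 h.2⟩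
      · rw [← hza]
        exact ⟨hz, fun h => hzB h.2⟩
    have hRB : B.card ≤ R.card := by
      refine card_le_card_of_injOn (fun k => p (k + 1)) (fun k hk => ?_) ?_
      · obtain ⟨h3, h4, h5, h6⟩ := hBm _ hk
        obtain ⟨h7, h8⟩ := h1 _ h3
        obtain ⟨c1, c2⟩ := hstart k h7 h8 h4
        rw [mem_coe, hR, mem_filter]
        refine ⟨hpP _ (by omega) h8, ?_⟩
        rw [c1]
        exact hk
      · intro a ha b hb hab
        obtain ⟨h3, h4, h5, h6⟩ := hBm _ ha
        obtain ⟨h7, h8⟩ := h1 _ h3
        obtain ⟨c1, c2⟩ := hstart a h7 h8 h4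
        obtain ⟨h3', h4', h5', h6'⟩ := hBm _ hb
        obtain ⟨h7', h8'⟩ := h1 _ h3'
        obtain ⟨c1', c2'⟩ := hstart b h7' h8' h4'
        simp only at hab
        rw [hab] at c1
        omega
    have h3 := card_le_card hIs
    have hRP : R ⊆ P := filter_subset _ _
    rw [card_sdiff_of_subset hRP] at h3
    have h4 : (Bd \ B).card + B.card = Bd.card :=
      card_sdiff_add_card_eq_card (fun k hk => (hBm k hk).1)
    have h5 := card_le_card hRP
    omega

end

end Pool.Agent.Q32.Gap
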