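import Pool.Agent.TH803.CL.Win
import Pool.Agent.Q32.Gap.Comb

set_option autoImplicit false

/-!
# Short gaps with index in a sparse set: the inequality for finite sets of points
-/

open scoped BigOperators ComplexConjugate
open Finset

namespace Pool.Agent.Q32.Gap

open H370 TH803UC TH803CL

/-- the lexicographic key -/
noncomputable def key (z : ℂ) : ℝ ×ₗ ℝ := toLex (z.re, z.im)

theorem key_inj {u v : ℂ} (h : key u = key v) : u = v := by
  unfold key at h
  have h1 : (u.re, u.im) = (v.re, v.im) := toLex.injective h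
  rw [Prod.mk.injEq] at h1
  exact Complex.ext h1.1 h1.2

theorem key_lt {u v : ℂ} : key u < key v ↔ u.re < v.re ∨ (u.re = v.re ∧ u.im < v.im) := by
  unfold key
  exact Prod.Lex.toLex_lt_toLex

/-- the weight of a point of the closed upper half plane -/
noncomputable def wn (m : ℂ → ℕ) (z : ℂ) : ℕ := if z.im = 0 then m z else 2 * m z

theorem cw_wn (m : ℂ → ℕ) (z : ℂ) : cw m z = (wn m z : ℝ) := by
  unfold cw wn
  split_ifs <;> push_cast <;> rfl

/-- **short gaps with index in a sparse set** -/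
theorem short_gaps {E : Type*} [NormedAddCommGroup E] [InnerProductSpace ℂ E]
    (φ : ℂ → ℂ) (k : ℂ → E) (hk : ∀ z w, Inner.inner ℂ (k z) (k w) = φ (w - (starRingEnd ℂ) z))
    (hev : ∀ z, φ (-z) = φ z) (h0 : φ 0 = 1)
    (Z : Finset ℂ) (hZ : ∀ z ∈ Z, (starRingEnd ℂ) z ∈ Z) (m : ℂ → ℕ)
    (hm1 : ∀ z ∈ Z, 1 ≤ m z) (hmc : ∀ z ∈ Z, m ((starRingEnd ℂ) z) = m z)
    {d η : ℝ} (hη : 0 ≤ η) (hφ : ∀ u : ℂ, ‖u‖ < d → ‖φ u - 1‖ ≤ η)
    (Bd : Finset ℕ) (hsep : ∀ a ∈ Bd, ∀ b ∈ Bd, a < b → a + 3 ≤ b)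
    (h1 : ∀ n ∈ Bd, 1 ≤ n ∧ n + 1 ≤ ∑ u ∈ Z.filter (fun z => 0 ≤ z.im), wn m u)
    (h2 : ∀ n ∈ Bd, ∀ u ∈ Z.filter (fun z => 0 ≤ z.im), ∀ v ∈ Z.filter (fun z => 0 ≤ z.im),
      blk (Z.filter (fun z => 0 ≤ z.im)) key (wn m) u n →
      blk (Z.filter (fun z => 0 ≤ z.im)) key (wn m) v (n + 1) → v.re - u.re < d) :
    2 * (Bd.card : ℝ) + ∑ z ∈ Z.filter (fun z => 0 ≤ z.im), cw m z ≤
      (∑ z ∈ Z, ∑ w ∈ Z, (m z : ℂ) * (m w : ℂ) * (φ (z - w)) ^ 2).re +
        4 * η * ∑ z ∈ Z.filter (fun z => 0 ≤ z.im), cw m z := by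
  classical
  set P := Z.filter (fun z => 0 ≤ z.im) with hP
  have hPm : ∀ z ∈ P, z ∈ Z ∧ 0 ≤ z.im := fun z hz => by rwa [hP, mem_filter] at hz
  have hw : ∀ u ∈ P, 1 ≤ wn m u := by
    intro u hu
    have := hm1 u (hPm u hu).1
    unfold wn
    split_ifs <;> omega
  obtain ⟨π, hπ1, hπ2⟩ := charge (P := P) (key := key) (w := wn m) (fun z => z.re)
    (fun u _ v _ huv => by
      rcases key_lt.1 huv with h | h
      · exact h.le
      · exact h.1.le)
    (fun u _ v _ h => key_inj h) hw d Bd hsep h1 h2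
  have hreal : ∀ z ∈ P, wn m z = 1 → z.im = 0 := by
    intro z hz h
    by_contra hne
    have := hm1 z (hPm z hz).1
    unfold wn at h
    rw [if_neg hne] at h
    omega
  have hcl : ∀ z ∈ Z, ∀ w ∈ Z, 0 ≤ z.im → 0 ≤ w.im → π z = π w →
      z = w ∨ (z.im = 0 ∧ w.im = 0 ∧ ‖z - w‖ < d) := by
    intro z hz w hw' hz0 hw0 h
    have hzP : z ∈ P := by rw [hP, mem_filter]; exact ⟨hz, hz0⟩
    have hwP : w ∈ P := by rw [hP, mem_filter]; exact ⟨hw', hw0⟩
    rcases hπ1 z hzP w hwP h with h3 | ⟨h3, h4, h5⟩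
    · exact Or.inl h3
    · right
      have a := hreal z hzP h3
      have b := hreal w hwP h4
      refine ⟨a, b, ?_⟩
      have e : z - w = ((z.re - w.re : ℝ) : ℂ) := by
        apply Complex.ext
        · simp
        · simp [a, b]
      rw [e, Complex.norm_real, Real.norm_eq_abs]
      exact h5
  have hmain := cluster_ineq φ k hk hev h0 Z hZ m hm1 hmc π hη (by
    intro z hz w hw' hz0 hw0 h
    rcases hcl z hz w hw' hz0 hw0 h with rfl | ⟨a, b, h5⟩
    · linarith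
    · have hc : (starRingEnd ℂ) z = z := Complex.conj_eq_iff_im.mpr a
      rw [hc, sub_self, h0, Complex.one_re]
      have d2 := (Complex.abs_re_le_norm _).trans (hφ _ h5)
      rw [Complex.sub_re, Complex.one_re] at d2
      linarith [(abs_le.1 d2).1]) (by
    intro z hz w hw' hz0 hw0 h
    rcases hcl z hz w hw' hz0 hw0 h with rfl | ⟨a, b, h5⟩
    · rw [sub_self, h0, Complex.one_re]; linarith
    · have hc : (starRingEnd ℂ) z = z := Complex.conj_eq_iff_im.mpr a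
      have hc2 : (starRingEnd ℂ) w = w := Complex.conj_eq_iff_im.mpr b
      rw [hc, hc2]
      have d2 := (Complex.abs_re_le_norm _).trans (hφ _ h5)
      rw [Complex.sub_re, Complex.one_re] at d2
      linarith [(abs_le.1 d2).1])
  rw [← hP] at hmain
  have hlow : ∀ a ∈ P.image π, 3 * Wc Z m π a - 2 ≤
      (if Wc Z m π a = 1 then 1 else 4 * Wc Z m π a - 4) := by
    intro a ha
    rcases Wc_int hm1 ha with h | h
    · rw [if_pos h, h]; norm_num
    · have h1 : Wc Z m π a ≠ 1 := fun h2 => by rw [h2] at h; norm_num at h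
      rw [if_neg h1]; linarith
  have hsum := Finset.sum_le_sum hlow
  rw [Finset.sum_sub_distrib, ← Finset.mul_sum, Wsum, ← hP, Finset.sum_const, nsmul_eq_mul] at hsum
  have hcard := hπ2 (P.image π) (fun a ha => by
    rw [mem_image] at ha
    obtain ⟨z, hz, h⟩ := ha
    exact ⟨z, hz, h⟩)
  have hcard' : ((P.image π).card : ℝ) + (Bd.card : ℝ) ≤ ∑ z ∈ P, cw m z := by
    have e : ∑ z ∈ P, cw m z = ((∑ u ∈ P, wn m u : ℕ) : ℝ) := by
      push_cast
      exact Finset.sum_congr rfl fun z _ => cw_wn m z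
    rw [e]
    exact_mod_cast hcard
  linarith

end Pool.Agent.Q32.Gap
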