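import Pool.Agent.Q32.Gap.Abs

set_option autoImplicit false

/-!
# Short gaps between the ordinates with index in a sparse set: one window
-/

open scoped BigOperators ComplexConjugate
open Finset MeasureTheory Complex

namespace Pool.Agent.Q32.Gap

open H370 H370.A2 H295SI TH803UC TH803CL

/-- the points of the closed upper half plane which belong to the zeros -/
noncomputable def PP (F : ℂ → ℂ) (A B : ℝ) : Finset ℂ := ((Zf F A B).image zz).filter (fun z => 0 ≤ z.im)

/-- their multiplicities -/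
noncomputable def mm (F : ℂ → ℂ) (z : ℂ) : ℕ := mult F (1 / 2 + I * z)

section

variable {F : ℂ → ℂ} (hF : GoodL F) {A B : ℝ} (hU : 1 ≤ A)

include hF hU

theorem NN_upto {t : ℝ} (ht : t ≤ B) :
    NN F A t = ∑ z ∈ (PP F A B).filter (fun z => z.re ≤ t), wn (mm F) z := by
  classical
  have h := split_real ((Zf F A B).image zz) (Zconj hF hU) (fun z => mult F (1 / 2 + I * z))
    (Zmc hF hU) (fun z => if z.re ≤ t then 1 else 0) (fun z => by rw [Complex.conj_re])
  rw [Finset.sum_image (fun s _ s' _ h => zz_inj h)] at h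
  have e1 : ∑ s ∈ Zf F A B, ((mult F (1 / 2 + I * zz s) : ℕ) : ℝ) * (if (zz s).re ≤ t then 1 else 0) =
      (NN F A t : ℝ) := by
    have e2 : (NN F A t : ℝ) = ∑ s ∈ Zf F A t, (mult F s : ℝ) := by
      rw [NN_eq hF hU]; push_cast; rfl
    rw [e2]
    have e3 : Zf F A t = (Zf F A B).filter (fun s => s.im ≤ t) := by
      ext s
      rw [mem_filter, mem_Zf hF hU, mem_Zf hF hU]
      unfold zset
      simp only [Set.mem_ofPred_eq]
      constructor
      · rintro ⟨a1, a2, a3, a4, a5⟩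
        exact ⟨⟨a1, a2, a3, a4.trans ht, a5⟩, a4⟩
      · rintro ⟨⟨a1, a2, a3, a4, a5⟩, a6⟩
        exact ⟨a1, a2, a3, a6, a5⟩
    rw [e3, Finset.sum_filter]
    refine Finset.sum_congr rfl fun s _ => ?_
    rw [zz_re, zz_back]
    split_ifs <;> simp
  rw [e1] at h
  have h2 : (NN F A t : ℝ) = ((∑ z ∈ (PP F A B).filter (fun z => z.re ≤ t), wn (mm F) z : ℕ) : ℝ) := by
    have h3 : ((∑ z ∈ (PP F A B).filter (fun z => z.re ≤ t), wn (mm F) z : ℕ) : ℝ) =
        ∑ z ∈ PP F A B, if z.re ≤ t then (wn (mm F) z : ℝ) else 0 := by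
      push_cast
      rw [Finset.sum_filter]
    rw [h3, h]
    unfold PP
    refine Finset.sum_congr rfl fun z _ => ?_
    rw [cw_wn]
    unfold mm
    split_ifs <;> simp
  exact_mod_cast h2

theorem PP_mem {z : ℂ} (hz : z ∈ PP F A B) : A < z.re ∧ z.re ≤ B := by
  classical
  unfold PP at hz
  rw [mem_filter, mem_image] at hz
  obtain ⟨⟨s, hs, rfl⟩, -⟩ := hz
  have := (mem_Zf hF hU).1 hs
  rw [zz_re]
  exact ⟨this.2.2.1, this.2.2.2.1⟩

theorem sum_PP : ∑ z ∈ PP F A B, wn (mm F) z = NN F A B := by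
  classical
  rw [NN_upto hF hU le_rfl]
  congr 1
  symm
  rw [filter_eq_self]
  intro z hz
  exact (PP_mem hF hU hz).2

/-- between neighbouring points the counting function is constant -/
theorem NN_between {n : ℕ} {u v : ℂ} (hu : u ∈ PP F A B) (hv : v ∈ PP F A B)
    (h1 : blk (PP F A B) key (wn (mm F)) u n) (h2 : blk (PP F A B) key (wn (mm F)) v (n + 1))
    {t : ℝ} (ht1 : u.re ≤ t) (ht2 : t < v.re) : NN F A t = n := by
  classical
  have hvB := (PP_mem hF hU hv).2
  rw [NN_upto hF hU (ht2.le.trans hvB)]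
  apply le_antisymm
  · have h3 : (PP F A B).filter (fun z => z.re ≤ t) ⊆ (PP F A B).filter (fun z => key z < key v) := by
      intro z hz
      rw [mem_filter] at hz ⊢
      exact ⟨hz.1, key_lt.2 (Or.inl (hz.2.trans_lt ht2))⟩
    have h4 := sum_le_sum_of_subset (f := wn (mm F)) h3
    have h5 := h2.1
    unfold sb at h5
    omega
  · have h3 : (PP F A B).filter (fun z => key z ≤ key u) ⊆ (PP F A B).filter (fun z => z.re ≤ t) := by
      intro z hz
      rw [mem_filter] at hz ⊢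
      refine ⟨hz.1, ?_⟩
      rcases hz.2.lt_or_eq with h | h
      · rcases key_lt.1 h with h' | h'
        · exact h'.le.trans ht1
        · exact h'.1.le.trans ht1
      · rw [key_inj h]
        exact ht1
    have h4 := sum_le_sum_of_subset (f := wn (mm F)) h3
    rw [sum_le_key (w := wn (mm F)) (fun a _ b _ h => key_inj h) hu] at h4
    have h5 := h1.2
    omega

/-- the gap with number `n` is at least as long as the distance of the neighbouring points -/
theorem gap_vol {n : ℕ} {u v : ℂ} (hu : u ∈ PP F A B) (hv : v ∈ PP F A B)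
    (h1 : blk (PP F A B) key (wn (mm F)) u n) (h2 : blk (PP F A B) key (wn (mm F)) v (n + 1)) :
    ENNReal.ofReal (v.re - u.re) ≤ volume {t : ℝ | A < t ∧ t < B ∧ NN F A t = n} := by
  rw [← Real.volume_Ico]
  refine measure_mono ?_
  intro t ht
  exact ⟨(PP_mem hF hU hu).1.trans_le ht.1, ht.2.trans_le (PP_mem hF hU hv).2,
    NN_between hF hU hu hv h1 h2 ht.1 ht.2⟩

/-- **the inequality in one window** -/
theorem window_bad {g : ℝ → ℝ} (hg : Win g) {Λ L δ : ℝ} (hΛ : 0 ≤ Λ) (hΛL : Λ ≤ L) (hL : 10 ≤ L)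
    (hδ : 0 < δ) (hδ1 : δ ≤ 2) (S : Finset ℕ) (hsep : ∀ a ∈ S, ∀ b ∈ S, a < b → a + 3 ≤ b)
    (hS : ∀ n ∈ S, 1 ≤ n ∧ n + 1 ≤ NN F A B ∧
      volume {t : ℝ | A < t ∧ t < B ∧ NN F A t = n} < ENNReal.ofReal (δ / L)) :
    2 * (S.card : ℝ) + NN F A B ≤ QQG g F Λ A B + 51 / 50 * δ ^ 2 * NN F A B := by
  classical
  obtain ⟨E, iE1, iE2, k, hk⟩ := H143TG.gramG_exists hg Λ
  have hL0 : 0 < L := by linarith
  have h := short_gaps (phiG g Λ) k hk (H143TG.phiG_even hg Λ) (H143TG.phiG_zero hg Λ)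
    ((Zf F A B).image zz) (Zconj hF hU) (fun z => mult F (1 / 2 + I * z)) (Zpos hF hU)
    (Zmc hF hU) (d := δ / L) (η := 51 / 200 * δ ^ 2) (by positivity) (by
      intro u hu
      refine phi_one hg hΛ hΛL hL hδ1 ?_
      have h1 : ‖u‖ * L ≤ δ / L * L := by gcongr
      refine h1.trans (le_of_eq ?_)
      field_simp) S hsep (by
      intro n hn
      refine ⟨(hS n hn).1, ?_⟩
      have h1 := sum_PP (B := B) hF hU
      unfold PP mm at h1
      rw [h1]
      exact (hS n hn).2.1) (by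
      intro n hn u hu v hv h1 h2
      have h3 := gap_vol (B := B) hF hU hu hv h1 h2
      have h4 := h3.trans_lt (hS n hn).2.2
      exact (ENNReal.ofReal_lt_ofReal_iff (by positivity)).1 h4)
  rw [ZN hF hU, ZQ hF hU] at h
  have e1 : 4 * (51 / 200 * δ ^ 2) * (NN F A B : ℝ) = 51 / 50 * δ ^ 2 * NN F A B := by ring
  rw [e1] at h
  exact h

end

end Pool.Agent.Q32.Gap
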