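import Pool.Agent.W201.Chain
import Pool.Agent.Q32.Gap.Window

set_option autoImplicit false

/-!
# The proportion of the short gaps: a chain of test matrices and one window
-/

open scoped BigOperators ComplexConjugate
open Finset MeasureTheory Complex

namespace Pool.Agent.Q32.Gap

open H370 H370.A2 H295SI TH803UC TH803CL

open Classical in
/-- the number of the points of `S` with a point of `S` to the right at distance at most `D` -/
noncomputable def cn (D : ℝ) (S : Finset ℝ) : ℕ :=
  (S.filter (fun x => ∃ y ∈ S, x < y ∧ y - x ≤ D)).card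

/-- a chain of links -/
theorem chain2 {Λ D s : ℝ}
    (hk : ∀ x y : ℝ, x < y → y - x ≤ D → ∃ t : ℝ, |t| ≤ 1 / 2 ∧
      s ≤ 4 * t * (phi Λ ((x : ℂ) - y)).re - 2 * t ^ 2) :
    ∀ (n : ℕ) (S : Finset ℝ), S.card = n → ∀ hne : S.Nonempty,
      ∃ Y : ℝ → ℝ → ℝ, (∀ v : ℝ → ℂ, ∑ x ∈ S, ∑ y ∈ S, Y x y * (conj (v x) * v y).re ≤
          ∑ x ∈ S, ‖v x‖ ^ 2 - 1 / 2 * ‖v (S.min' hne)‖ ^ 2) ∧ s * cn D S ≤ YT Λ S Y := by
  classical
  intro n
  induction n using Nat.strong_induction_on with
  | _ n ih =>
    intro S hSn hne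
    set x1 := S.min' hne with hx1
    have hx1S : x1 ∈ S := S.min'_mem hne
    set S1 := S.erase x1 with hS1
    have hSins : insert x1 S1 = S := Finset.insert_erase hx1S
    have hx1S1 : x1 ∉ S1 := Finset.notMem_erase _ _
    rcases S1.eq_empty_or_nonempty with hS1e | hS1ne
    · have hS : S = {x1} := by rw [← hSins, hS1e]; rfl
      refine ⟨fun _ _ => 0, fun v => ?_, ?_⟩
      · simp only [zero_mul, Finset.sum_const_zero]
        have : ‖v x1‖ ^ 2 ≤ ∑ x ∈ S, ‖v x‖ ^ 2 :=
          Finset.single_le_sum (f := fun x => ‖v x‖ ^ 2) (fun x _ => by positivity) hx1S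
        have h0 : 0 ≤ ‖v x1‖ ^ 2 := by positivity
        linarith
      · have e1 : YT Λ S (fun _ _ => 0) = 0 := by unfold YT; simp
        have e2 : cn D S = 0 := by
          unfold cn
          rw [Finset.card_eq_zero, Finset.filter_eq_empty_iff]
          rintro x hx ⟨y, hy, h1, -⟩
          rw [hS, Finset.mem_singleton] at hx hy
          rw [hx, hy] at h1
          exact lt_irrefl _ h1
        rw [e1, e2]
        simp
    · have hc1 : S1.card < n := by rw [← hSn]; exact Finset.card_erase_lt_of_mem hx1S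
      obtain ⟨Y1, hY1, hY1c⟩ := ih _ hc1 S1 rfl hS1ne
      set x2 := S1.min' hS1ne with hx2
      have hx2S1 : x2 ∈ S1 := S1.min'_mem hS1ne
      have hx2S : x2 ∈ S := Finset.mem_of_mem_erase hx2S1
      have h12 : x1 < x2 := lt_of_le_of_ne (S.min'_le x2 hx2S)
        (Ne.symm (Finset.ne_of_mem_erase hx2S1))
      have hm : ∀ x ∈ S1, x2 ≤ x := fun x hx => S1.min'_le x hx
      obtain ⟨t, ht, htc⟩ : ∃ t : ℝ, |t| ≤ 1 / 2 ∧ (if x2 - x1 ≤ D then s else 0) ≤
          4 * t * (phi Λ ((x1 : ℂ) - x2)).re - 2 * t ^ 2 := by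
        by_cases hD : x2 - x1 ≤ D
        · obtain ⟨t, ht, htc⟩ := hk x1 x2 h12 hD
          exact ⟨t, ht, by rw [if_pos hD]; exact htc⟩
        · exact ⟨0, by norm_num, by rw [if_neg hD]; norm_num⟩
      -- the number of the links
      have hcn : (cn D S : ℝ) ≤ cn D S1 + (if x2 - x1 ≤ D then 1 else 0) := by
        have hsub : S.filter (fun x => ∃ y ∈ S, x < y ∧ y - x ≤ D) ⊆
            S1.filter (fun x => ∃ y ∈ S1, x < y ∧ y - x ≤ D) ∪ (if x2 - x1 ≤ D then {x1} else ∅) := by
          intro x hx
          rw [Finset.mem_filter] at hx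
          obtain ⟨hx, y, hy, h1, h2⟩ := hx
          have hyx1 : y ≠ x1 := by
            rintro rfl
            have := S.min'_le x hx
            linarith
          have hy1 : y ∈ S1 := Finset.mem_erase.2 ⟨hyx1, hy⟩
          rw [Finset.mem_union]
          by_cases hxx : x = x1
          · right
            have h3 := hm y hy1
            rw [if_pos (by rw [hxx] at h2; linarith), hxx]
            exact Finset.mem_singleton_self _
          · left
            rw [Finset.mem_filter]
            exact ⟨Finset.mem_erase.2 ⟨hxx, hx⟩, y, hy1, h1, h2⟩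
        have h3 := (Finset.card_le_card hsub).trans (Finset.card_union_le _ _)
        have h4 : (cn D S : ℝ) ≤ cn D S1 + ((if x2 - x1 ≤ D then ({x1} : Finset ℝ) else ∅).card : ℝ) := by
          exact_mod_cast h3
        refine h4.trans ?_
        split_ifs <;> simp
      refine ⟨Pool.Agent.W201.ext x1 x2 S1 Y1 t, fun v => ?_, ?_⟩
      · have h1 := Pool.Agent.W201.ext_sum x1 x2 S1 hx1S1 hx2S1 Y1 t (fun x y => (conj (v x) * v y).re)
        rw [hSins] at h1
        rw [h1]
        have h2 := hY1 v
        have h3 : ∑ x ∈ S, ‖v x‖ ^ 2 = ‖v x1‖ ^ 2 + ∑ x ∈ S1, ‖v x‖ ^ 2 := by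
          rw [← hSins, Finset.sum_insert hx1S1]
        rw [h3]
        have h4 : (conj (v x1) * v x2).re + (conj (v x2) * v x1).re =
            2 * (conj (v x1) * v x2).re := by
          simp only [Complex.mul_re, Complex.conj_re, Complex.conj_im]
          ring
        have h5 : |(conj (v x1) * v x2).re| ≤ ‖v x1‖ * ‖v x2‖ := by
          refine (Complex.abs_re_le_norm _).trans ?_
          rw [norm_mul, Complex.norm_conj]
        have h6 : t * (2 * (conj (v x1) * v x2).re) ≤
            1 / 2 * (‖v x1‖ ^ 2 + ‖v x2‖ ^ 2) := by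
          have a1 : t * (2 * (conj (v x1) * v x2).re) ≤ |t| * (2 * |(conj (v x1) * v x2).re|) := by
            have := le_abs_self (t * (2 * (conj (v x1) * v x2).re))
            rw [abs_mul, abs_mul, abs_two] at this
            exact this
          have a2 : |t| * (2 * |(conj (v x1) * v x2).re|) ≤ 1 / 2 * (2 * (‖v x1‖ * ‖v x2‖)) := by
            apply mul_le_mul ht _ (by positivity) (by norm_num)
            linarith
          have a3 := two_mul_le_add_sq (‖v x1‖) (‖v x2‖)
          linarith
        rw [h4]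
        linarith
      · have h1 := Pool.Agent.W201.ext_YT Λ x1 x2 S1 hx1S1 hx2S1 Y1 t
        rw [hSins] at h1
        rw [h1]
        by_cases hs : 0 ≤ s
        · have h2 := mul_le_mul_of_nonneg_left hcn hs
          have h3 : s * (if x2 - x1 ≤ D then (1 : ℝ) else 0) = (if x2 - x1 ≤ D then s else 0) := by
            split_ifs <;> ring
          have h4 : s * ((cn D S1 : ℝ) + if x2 - x1 ≤ D then (1 : ℝ) else 0) =
              s * cn D S1 + (if x2 - x1 ≤ D then s else 0) := by rw [mul_add, h3]
          rw [h4] at h2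
          linarith
        · push Not at hs
          have hlow : cn D S1 + (if x2 - x1 ≤ D then 1 else 0) ≤ cn D S := by
            have hsub : S1.filter (fun x => ∃ y ∈ S1, x < y ∧ y - x ≤ D) ∪
                (if x2 - x1 ≤ D then {x1} else ∅) ⊆ S.filter (fun x => ∃ y ∈ S, x < y ∧ y - x ≤ D) := by
              intro x hx
              rw [Finset.mem_union] at hx
              rw [Finset.mem_filter]
              rcases hx with hx | hx
              · rw [Finset.mem_filter] at hx
                obtain ⟨a1, y, a2, a3, a4⟩ := hx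
                exact ⟨Finset.mem_of_mem_erase a1, y, Finset.mem_of_mem_erase a2, a3, a4⟩
              · split_ifs at hx with hD
                · rw [Finset.mem_singleton] at hx
                  subst hx
                  exact ⟨hx1S, x2, hx2S, h12, hD⟩
                · simp at hx
            have h3 := Finset.card_le_card hsub
            rw [Finset.card_union_of_disjoint] at h3
            · refine le_trans ?_ h3
              unfold cn
              split_ifs <;> simp
            · rw [Finset.disjoint_left]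
              intro x hx hx2
              rw [Finset.mem_filter] at hx
              split_ifs at hx2 with hD
              · rw [Finset.mem_singleton] at hx2
                rw [hx2] at hx
                exact hx1S1 hx.1
              · simp at hx2
          have hlow' : (cn D S1 : ℝ) + (if x2 - x1 ≤ D then 1 else 0) ≤ cn D S := by
            have : ((cn D S1 + (if x2 - x1 ≤ D then 1 else 0) : ℕ) : ℝ) ≤ cn D S := by exact_mod_cast hlow
            push_cast at this
            exact this
          have h2 := mul_le_mul_of_nonpos_left hlow' hs.le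
          have h3 : s * (if x2 - x1 ≤ D then (1 : ℝ) else 0) = (if x2 - x1 ≤ D then s else 0) := by
            split_ifs <;> ring
          have h4 : s * ((cn D S1 : ℝ) + if x2 - x1 ≤ D then (1 : ℝ) else 0) =
              s * cn D S1 + (if x2 - x1 ≤ D then s else 0) := by rw [mul_add, h3]
          rw [h4] at h2
          linarith

section

variable {β α : Type*} [LinearOrder α] {P : Finset β} {key : β → α} {w : β → ℕ}

/-- **the counting argument for all indices** -/
theorem half_charge [Nonempty β] (x : β → ℝ)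
    (hinj : ∀ u ∈ P, ∀ v ∈ P, key u = key v → u = v) (hw : ∀ u ∈ P, 1 ≤ w u) (d : ℝ)
    (Bd : Finset ℕ)
    (h1 : ∀ k ∈ Bd, 1 ≤ k ∧ k + 1 ≤ ∑ u ∈ P, w u)
    (h2 : ∀ k ∈ Bd, ∀ u ∈ P, ∀ v ∈ P, blk P key w u k → blk P key w v (k + 1) → x v - x u ≤ d)
    (Q : Finset β) (hQ : ∀ u ∈ P, ∀ v ∈ P, w u = 1 → w v = 1 → key u < key v → x v - x u ≤ d → u ∈ Q) :
    2 * Bd.card ≤ 3 * ∑ u ∈ P.filter (fun u => w u ≠ 1), w u + 2 * Q.card := by
  classical
  have hex : ∀ k : ℕ, 1 ≤ k → k ≤ ∑ u ∈ P, w u → ∃ z ∈ P, blk P key w z k :=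
    fun k a b => exists_blk hinj a b
  choose! p hpP hpb using hex
  have hu : ∀ {z u : β}, z ∈ P → u ∈ P → ∀ {k : ℕ}, blk P key w z k → blk P key w u k → z = u :=
    fun hz hu _ a b => blk_unique hinj hz hu a b
  have hstart : ∀ k : ℕ, 1 ≤ k → k + 1 ≤ ∑ u ∈ P, w u → p k ≠ p (k + 1) →
      sb P key w (p (k + 1)) = k ∧ sb P key w (p k) + w (p k) = k := by
    intro k hk1 hk2 hne
    have a := hpb k hk1 (by omega)
    have b := hpb (k + 1) (by omega) hk2
    have aP := hpP k hk1 (by omega)
    have bP := hpP (k + 1) (by omega) hk2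
    constructor
    · by_contra h
      have h3 : sb P key w (p (k + 1)) < k := by
        have := b.1
        omega
      exact hne (hu aP bP a ⟨h3, by have := b.2; omega⟩)
    · by_contra h
      have h3 : k + 1 ≤ sb P key w (p k) + w (p k) := by
        have := a.2
        omega
      exact hne (hu aP bP ⟨by have := a.1; omega, h3⟩ b)
  set M := P.filter (fun u => w u ≠ 1) with hM
  -- the four classes
  set A0 := Bd.filter (fun k => p k = p (k + 1)) with hA0
  set A1 := Bd.filter (fun k => p k ≠ p (k + 1) ∧ w (p (k + 1)) ≠ 1) with hA1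
  set A2 := Bd.filter (fun k => p k ≠ p (k + 1) ∧ w (p k) ≠ 1) with hA2
  set A3 := Bd.filter (fun k => p k ≠ p (k + 1) ∧ w (p k) = 1 ∧ w (p (k + 1)) = 1) with hA3
  have hcov : Bd ⊆ (A0 ∪ A1) ∪ (A2 ∪ A3) := by
    intro k hk
    simp only [hA0, hA1, hA2, hA3, mem_union, mem_filter]
    by_cases c0 : p k = p (k + 1)
    · exact Or.inl (Or.inl ⟨hk, c0⟩)
    · by_cases c1 : w (p (k + 1)) = 1
      · by_cases c2 : w (p k) = 1
        · exact Or.inr (Or.inr ⟨hk, c0, c2, c1⟩)
        · exact Or.inr (Or.inl ⟨hk, c0, c2⟩)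
      · exact Or.inl (Or.inr ⟨hk, c0, c1⟩)
  have hc : Bd.card ≤ A0.card + A1.card + (A2.card + A3.card) :=
    (card_le_card hcov).trans ((card_union_le _ _).trans (add_le_add (card_union_le _ _) (card_union_le _ _)))
  have c0 : A0.card ≤ (inner (P := P) (key := key) (w := w)).card := by
    refine card_le_card ?_
    intro k hk
    rw [hA0, mem_filter] at hk
    obtain ⟨hkB, he⟩ := hk
    obtain ⟨hk1, hk2⟩ := h1 k hkB
    unfold inner
    rw [mem_biUnion]
    refine ⟨p k, hpP k hk1 (by omega), ?_⟩
    rw [mem_Ioo]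
    refine ⟨(hpb k hk1 (by omega)).1, ?_⟩
    have := (hpb (k + 1) (by omega) hk2).2
    rw [← he] at this
    omega
  have c1 : A1.card ≤ M.card := by
    refine card_le_card_of_injOn (fun k => p (k + 1)) (fun k hk => ?_) ?_
    · rw [mem_coe, hA1, mem_filter] at hk
      obtain ⟨hkB, he, hw1⟩ := hk
      obtain ⟨hk1, hk2⟩ := h1 k hkB
      rw [mem_coe, hM, mem_filter]
      exact ⟨hpP _ (by omega) hk2, hw1⟩
    · intro a ha b hb hab
      rw [mem_coe, hA1, mem_filter] at ha hb
      obtain ⟨ha1, ha2⟩ := h1 a ha.1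
      obtain ⟨hb1, hb2⟩ := h1 b hb.1
      have e1 := (hstart a ha1 ha2 ha.2.1).1
      have e2 := (hstart b hb1 hb2 hb.2.1).1
      simp only at hab
      rw [hab] at e1
      omega
  have c2 : A2.card ≤ M.card := by
    refine card_le_card_of_injOn p (fun k hk => ?_) ?_
    · rw [mem_coe, hA2, mem_filter] at hk
      obtain ⟨hkB, he, hw1⟩ := hk
      obtain ⟨hk1, hk2⟩ := h1 k hkB
      rw [mem_coe, hM, mem_filter]
      exact ⟨hpP _ hk1 (by omega), hw1⟩
    · intro a ha b hb hab
      rw [mem_coe, hA2, mem_filter] at ha hb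
      obtain ⟨ha1, ha2⟩ := h1 a ha.1
      obtain ⟨hb1, hb2⟩ := h1 b hb.1
      have e1 := (hstart a ha1 ha2 ha.2.1).2
      have e2 := (hstart b hb1 hb2 hb.2.1).2
      rw [hab] at e1
      omega
  have c3 : A3.card ≤ Q.card := by
    refine card_le_card_of_injOn p (fun k hk => ?_) ?_
    · rw [mem_coe, hA3, mem_filter] at hk
      obtain ⟨hkB, he, hw1, hw2⟩ := hk
      obtain ⟨hk1, hk2⟩ := h1 k hkB
      obtain ⟨s1, s2⟩ := hstart k hk1 hk2 he
      have aP := hpP k hk1 (by omega)
      have bP := hpP (k + 1) (by omega) hk2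
      refine hQ _ aP _ bP hw1 hw2 ?_ (h2 k hkB _ aP _ bP (hpb k hk1 (by omega)) (hpb (k + 1) (by omega) hk2))
      rcases lt_trichotomy (key (p k)) (key (p (k + 1))) with h | h | h
      · exact h
      · exact absurd (hinj _ aP _ bP h) he
      · have := sb_le (w := w) bP h
        have := hw _ aP
        omega
    · intro a ha b hb hab
      rw [mem_coe, hA3, mem_filter] at ha hb
      obtain ⟨ha1, ha2⟩ := h1 a ha.1
      obtain ⟨hb1, hb2⟩ := h1 b hb.1
      have e1 := (hstart a ha1 ha2 ha.2.1).2
      have e2 := (hstart b hb1 hb2 hb.2.1).2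
      rw [hab] at e1
      omega
  have hin := inner_card (w := w) hinj hw
  have hPc : (P.filter (fun u => ¬ w u ≠ 1)).card + M.card = P.card := by
    rw [add_comm]
    exact card_filter_add_card_filter_not _
  have hsum : ∑ u ∈ P, w u = ∑ u ∈ M, w u + (P.filter (fun u => ¬ w u ≠ 1)).card := by
    rw [← sum_filter_add_sum_filter_not P (fun u => w u ≠ 1)]
    congr 1
    rw [card_eq_sum_ones]
    refine sum_congr rfl fun u hu => ?_
    rw [mem_filter] at hu
    exact not_not.1 hu.2
  have hM2 : 2 * M.card ≤ ∑ u ∈ M, w u := by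
    rw [mul_comm, ← smul_eq_mul, ← sum_const]
    refine sum_le_sum fun u hu => ?_
    rw [hM, mem_filter] at hu
    have := hw u hu.1
    have := hu.2
    omega
  omega

end

end Pool.Agent.Q32.Gap
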