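import Pool.Agent.Q32.Gap.Half1
import Pool.Agent.H344R2.Core
import Pool.Agent.W201.Kern

set_option autoImplicit false

/-!
# The proportion of the short gaps: one window
-/

open scoped BigOperators ComplexConjugate
open Finset MeasureTheory Complex

namespace Pool.Agent.Q32.Gap

open H370 H370.A2 H295SI TH803UC TH803CL

section

variable {F : ℂ → ℂ} (hF : GoodL F) {A B : ℝ} (hU : 1 ≤ A)

theorem PP_simple {z : ℂ} (hz : z ∈ PP F A B) (hw : wn (mm F) z = 1) : z.im = 0 ∧ z.re ∈ SF F A B := by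
  classical
  unfold wn at hw
  by_cases h0 : z.im = 0
  · rw [if_pos h0] at hw
    refine ⟨h0, ?_⟩
    have hzr : ((z.re : ℝ) : ℂ) = z := Complex.ext (by simp) (by simp [h0])
    rw [H344.mem_SF, hzr]
    refine ⟨?_, hw⟩
    unfold PP at hz
    rw [mem_filter, mem_image] at hz
    obtain ⟨⟨s, hs, rfl⟩, -⟩ := hz
    rw [zz_back]
    exact hs
  · rw [if_neg h0] at hw
    omega

theorem SF_PP {x : ℝ} (hx : x ∈ SF F A B) : (x : ℂ) ∈ PP F A B ∧ wn (mm F) (x : ℂ) = 1 := by
  classical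
  rw [H344.mem_SF] at hx
  refine ⟨?_, ?_⟩
  · unfold PP
    rw [mem_filter, mem_image]
    refine ⟨⟨1 / 2 + I * x, hx.1, ?_⟩, by simp⟩
    apply Complex.ext
    · rw [zz_re]; simp
    · rw [zz_im]; simp
  · unfold wn mm
    rw [if_pos (by simp)]
    exact hx.2

theorem SF_card_eq : (SF F A B).card = ((PP F A B).filter (fun z => wn (mm F) z = 1)).card := by
  classical
  apply le_antisymm
  · refine card_le_card_of_injOn (fun x => (x : ℂ)) (fun x hx => ?_) (fun a _ b _ h => ?_)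
    · rw [mem_coe, mem_filter]
      exact SF_PP hx
    · exact Complex.ofReal_injective h
  · refine card_le_card_of_injOn (fun z => z.re) (fun z hz => ?_) (fun a ha b hb h => ?_)
    · rw [mem_coe, mem_filter] at hz
      exact (PP_simple hz.1 hz.2).2
    · rw [mem_coe, mem_filter] at ha hb
      exact Complex.ext h (by rw [(PP_simple ha.1 ha.2).1, (PP_simple hb.1 hb.2).1])

include hF hU

theorem PP_wpos {z : ℂ} (hz : z ∈ PP F A B) : 1 ≤ wn (mm F) z := by
  classical
  have hZ : z ∈ (Zf F A B).image zz := by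
    unfold PP at hz
    exact (mem_filter.1 hz).1
  have h := Zpos hF hU z hZ
  unfold wn mm
  split_ifs <;> omega

/-- **the inequality for all short gaps in one window** -/
theorem window_half {Λ D s : ℝ} (hs : 0 ≤ s) (hD : 0 ≤ D)
    (hk : ∀ x y : ℝ, x < y → y - x ≤ D → ∃ t : ℝ, |t| ≤ 1 / 2 ∧
      s ≤ 4 * t * (phi Λ ((x : ℂ) - y)).re - 2 * t ^ 2) (Bd : Finset ℕ)
    (hS : ∀ n ∈ Bd, 1 ≤ n ∧ n + 1 ≤ NN F A B ∧
      volume {t : ℝ | A < t ∧ t < B ∧ NN F A t = n} ≤ ENNReal.ofReal D) :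
    min (2 / 3) s * (Bd.card : ℝ) ≤ QQ F Λ A B - NN F A B := by
  classical
  set S := SF F A B with hSdef
  -- the test matrix
  obtain ⟨Y, hY, hYs⟩ : ∃ Y : ℝ → ℝ → ℝ, (∀ v : ℝ → ℂ, ∑ x ∈ S, ∑ y ∈ S, Y x y * (conj (v x) * v y).re ≤
      ∑ x ∈ S, ‖v x‖ ^ 2) ∧ s * cn D S ≤ YT Λ S Y := by
    rcases S.eq_empty_or_nonempty with hSe | hne
    · rw [hSe]
      refine ⟨fun _ _ => 0, fun v => by simp, ?_⟩
      unfold cn YT
      simp
    · obtain ⟨Y, hY, hYs⟩ := chain2 hk S.card S rfl hne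
      refine ⟨Y, fun v => (hY v).trans ?_, hYs⟩
      have : 0 ≤ ‖v (S.min' hne)‖ ^ 2 := by positivity
      linarith
  have h1 := (trace_zeros hF hU Λ Y hY).1
  rw [Ns_card hF hU] at h1
  -- the counting
  set Q := S.filter (fun x => ∃ y ∈ S, x < y ∧ y - x ≤ D) with hQdef
  have hQc : Q.card = cn D S := rfl
  have h2 := half_charge (P := PP F A B) (key := key) (w := wn (mm F)) (fun z => z.re)
    (fun u _ v _ h => key_inj h) (fun u hu => PP_wpos hF hU hu) D Bd (by
      intro k hk'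
      have := hS k hk'
      have e := sum_PP (B := B) hF hU
      exact ⟨this.1, by rw [e]; exact this.2.1⟩) (by
      intro k hk' u hu v hv b1 b2
      have h3 := gap_vol (B := B) hF hU hu hv b1 b2
      exact (ENNReal.ofReal_le_ofReal_iff hD).1 (h3.trans (hS k hk').2.2))
    (Q.image Complex.ofReal) (by
      intro u hu v hv hwu hwv huv hd
      obtain ⟨u0, u1⟩ := PP_simple hu hwu
      obtain ⟨v0, v1⟩ := PP_simple hv hwv
      rw [mem_image]
      refine ⟨u.re, ?_, Complex.ext (by simp) (by simp [u0])⟩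
      rw [hQdef, mem_filter]
      refine ⟨u1, v.re, v1, ?_, hd⟩
      rcases key_lt.1 huv with h | h
      · exact h
      · rw [u0, v0] at h
        exact absurd h.2 (lt_irrefl _))
  have h3 : (Q.image Complex.ofReal).card ≤ cn D S := by
    rw [← hQc]
    exact card_image_le
  have h4 : ∑ u ∈ PP F A B, wn (mm F) u = ∑ u ∈ (PP F A B).filter (fun u => wn (mm F) u ≠ 1), wn (mm F) u +
      (SF F A B).card := by
    rw [SF_card_eq, ← sum_filter_add_sum_filter_not (PP F A B) (fun u => wn (mm F) u ≠ 1)]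
    congr 1
    have e : (PP F A B).filter (fun u => ¬ wn (mm F) u ≠ 1) = (PP F A B).filter (fun u => wn (mm F) u = 1) := by
      ext u
      simp
    rw [e, card_eq_sum_ones]
    refine sum_congr rfl fun u hu => ?_
    rw [mem_filter] at hu
    exact hu.2
  rw [sum_PP hF hU] at h4
  set V := ∑ u ∈ (PP F A B).filter (fun u => wn (mm F) u ≠ 1), wn (mm F) u with hV
  have h5 : 2 * Bd.card ≤ 3 * V + 2 * cn D S := by omega
  have h5' : 2 * (Bd.card : ℝ) ≤ 3 * V + 2 * cn D S := by exact_mod_cast h5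
  have h4' : (NN F A B : ℝ) = V + S.card := by exact_mod_cast h4
  set m := min (2 / 3) s with hm
  have hm0 : 0 ≤ m := le_min (by norm_num) hs
  have hm1 : m ≤ 2 / 3 := min_le_left _ _
  have hm2 : m ≤ s := min_le_right _ _
  have h6 : m * (2 * (Bd.card : ℝ)) ≤ m * (3 * V + 2 * cn D S) := mul_le_mul_of_nonneg_left h5' hm0
  have h7 : m * (3 * (V : ℝ)) ≤ 2 / 3 * (3 * V) := mul_le_mul_of_nonneg_right hm1 (by positivity)
  have h8 : m * (2 * (cn D S : ℝ)) ≤ s * (2 * cn D S) := mul_le_mul_of_nonneg_right hm2 (by positivity)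
  have h9 : m * (3 * (V : ℝ) + 2 * cn D S) = m * (3 * V) + m * (2 * cn D S) := by ring
  linarith

end

/-! ### the kernel -/

/-- the kernel at distance `u` mean spacings -/
noncomputable def K (u : ℝ) : ℝ :=
  (∫ t in (-1 / 2 : ℝ)..(1 / 2), Real.cos (Real.sqrt 2 * t) * Real.cos (2 * Real.pi * u * t)) /
    (Real.sqrt 2 * Real.sin (1 / Real.sqrt 2))

/-- what a link of length `u` yields -/
noncomputable def gn (u : ℝ) : ℝ := if K u ≤ 1 / 2 then 2 * K u ^ 2 else 2 * K u - 1 / 2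

theorem K_eq (u : ℝ) : K u = H344.KK u := by
  unfold K H344.KK
  rw [GramAux.kap_re, ← intervalIntegral.integral_div]
  apply intervalIntegral.integral_congr
  intro t _
  simp only [g0]
  ring

end Pool.Agent.Q32.Gap
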