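import Pool.Agent.Q32.Gap.Half2

set_option autoImplicit false

/-!
# The proportion of the short gaps: the kernel
-/

open scoped BigOperators ComplexConjugate
open Finset MeasureTheory Complex

namespace Pool.Agent.Q32.Gap

open H370

theorem K_anti {a b : ℝ} (ha : 0 ≤ a) (hab : a ≤ b) (hb : b ≤ 1) : K b ≤ K a := by
  rw [K_eq, K_eq]
  unfold H344.KK
  rw [GramAux.kap_re, GramAux.kap_re]
  have hc := GramAux.g0_cont
  apply intervalIntegral.integral_mono_on (by norm_num)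
  · apply Continuous.intervalIntegrable; fun_prop
  · apply Continuous.intervalIntegrable; fun_prop
  intro t ht
  have hg := GramAux.g0_nonneg ht.1 ht.2
  apply mul_le_mul_of_nonneg_left _ hg
  have hpi := Real.pi_pos
  have ht2 : |t| ≤ 1 / 2 := by
    rw [abs_le]
    constructor <;> linarith [ht.1, ht.2]
  rw [← Real.cos_abs (2 * Real.pi * b * t), ← Real.cos_abs (2 * Real.pi * a * t)]
  have e : ∀ c : ℝ, 0 ≤ c → |2 * Real.pi * c * t| = 2 * Real.pi * c * |t| := by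
    intro c hc'
    rw [abs_mul, abs_of_nonneg (by positivity)]
  rw [e a ha, e b (ha.trans hab)]
  apply Real.cos_le_cos_of_nonneg_of_le_pi (by positivity)
  · calc 2 * Real.pi * b * |t| ≤ 2 * Real.pi * 1 * (1 / 2) := by gcongr
      _ = Real.pi := by ring
  · gcongr

theorem K_one_nonneg : 0 ≤ K 1 := by
  rw [K_eq]
  refine Pool.Agent.W201.KK_low (by norm_num) le_rfl le_rfl ?_
  norm_num

theorem K_nonneg {u : ℝ} (h0 : 0 ≤ u) (h1 : u ≤ 1) : 0 ≤ K u :=
  K_one_nonneg.trans (K_anti h0 h1 le_rfl)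

theorem K_le_one (u : ℝ) : K u ≤ 1 := by
  rw [K_eq]
  exact (le_abs_self _).trans (Pool.Agent.W201.KK_abs u)

theorem gn_anti {a b : ℝ} (ha : 0 ≤ a) (hab : a ≤ b) (hb : b ≤ 1) : gn b ≤ gn a := by
  have h1 := K_anti ha hab hb
  have h2 := K_nonneg (ha.trans hab) hb
  unfold gn
  split_ifs with c1 c2 c2
  · nlinarith
  · push Not at c2
    nlinarith
  · linarith
  · linarith

theorem gn_ge {a k : ℝ} (hk : k ≤ K a) (hk0 : 0 ≤ k) : (if k ≤ 1 / 2 then 2 * k ^ 2 else 2 * k - 1 / 2) ≤ gn a := by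
  unfold gn
  split_ifs with c1 c2 c2
  · nlinarith
  · push Not at c2
    nlinarith
  · linarith
  · linarith

/-- links shorter than `lam` mean spacings -/
theorem link {lam θ σ Λ : ℝ} (h0 : 0 < lam) (h1 : lam ≤ 1) (hθ0 : 0 ≤ θ) (hθ1 : θ ≤ 1) (hσ : 0 < σ)
    (hΛ : Λ * σ = 2 * Real.pi * θ) (x y : ℝ) (hxy : x < y) (hd : y - x ≤ lam * σ) :
    ∃ t : ℝ, |t| ≤ 1 / 2 ∧
      gn lam - σ ^ 2 / 4 ≤ 4 * t * (phi Λ ((x : ℂ) - y)).re - 2 * t ^ 2 := by
  have hK0 := K_nonneg h0.le h1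
  have hK1 := K_le_one lam
  have hphi : (phi Λ ((x : ℂ) - y)).re =
      K (θ * ((y - x) / σ)) * Real.exp (-(y - x) ^ 2 / 8) := by
    rw [phi_sub_symm, phi_sub_re, K_eq]
    unfold H344.KK
    congr 4
    have : Λ = 2 * Real.pi * θ / σ := by rw [← hΛ]; field_simp
    rw [this]
    field_simp
  set E := Real.exp (-(y - x) ^ 2 / 8) with hE
  have hE0 : 0 < E := Real.exp_pos _
  have hE1 : E ≤ 1 := Real.exp_le_one_iff.mpr (by nlinarith [sq_nonneg (y - x)])
  have hE2 : 1 - E ≤ σ ^ 2 / 8 := by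
    have h2 := Real.add_one_le_exp (-(y - x) ^ 2 / 8)
    have h3 : (y - x) ^ 2 ≤ σ ^ 2 := by
      have : y - x ≤ σ := hd.trans (by nlinarith)
      have h4 : 0 ≤ y - x := by linarith
      nlinarith
    rw [← hE] at h2
    linarith
  have hu0 : 0 ≤ (y - x) / σ := div_nonneg (by linarith) hσ.le
  have hu1 : (y - x) / σ ≤ lam := by rwa [div_le_iff₀ hσ]
  have hKm : K lam ≤ K (θ * ((y - x) / σ)) := K_anti (by positivity) (by nlinarith) h1
  -- the parameter
  obtain ⟨t, ht0, ht1, ht2⟩ : ∃ t : ℝ, 0 ≤ t ∧ t ≤ 1 / 2 ∧ gn lam = 4 * t * K lam - 2 * t ^ 2 := by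
    by_cases hc : K lam ≤ 1 / 2
    · refine ⟨K lam, hK0, hc, ?_⟩
      unfold gn
      rw [if_pos hc]
      ring
    · refine ⟨1 / 2, by norm_num, le_rfl, ?_⟩
      unfold gn
      rw [if_neg hc]
      ring
  refine ⟨t, by rw [abs_of_nonneg ht0]; exact ht1, ?_⟩
  rw [hphi, ht2]
  have h5 : K lam * E ≤ K (θ * ((y - x) / σ)) * E := mul_le_mul_of_nonneg_right hKm hE0.le
  have h6 : 4 * t * (K lam * E) ≤ 4 * t * (K (θ * ((y - x) / σ)) * E) :=
    mul_le_mul_of_nonneg_left h5 (by positivity)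
  have h7 : 4 * t * K lam * (1 - E) ≤ 2 * (σ ^ 2 / 8) := by
    have h8 : 4 * t * K lam ≤ 2 := by nlinarith
    calc 4 * t * K lam * (1 - E) ≤ 2 * (1 - E) := mul_le_mul_of_nonneg_right h8 (by linarith)
      _ ≤ 2 * (σ ^ 2 / 8) := by linarith
  have h9 : 4 * t * K lam * (1 - E) = 4 * t * K lam - 4 * t * (K lam * E) := by ring
  linarith

/-- lower bound for the kernel beyond `1/2` -/
theorem K_mid {u k : ℝ} (h0 : 1 / 2 ≤ u) (h1 : u ≤ 7 / 10) (hk0 : 0 ≤ k)
    (hk : (39.4788 * u ^ 2 - 2) * k ≤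
      2 * (6.283 * u * (1 - 4.93485 * (u - 1 / 2) ^ 2) / 1.21 + 3.1415 * (u - 1 / 2) -
        5.168 * (u - 1 / 2) ^ 3)) : k ≤ K u := by
  have hP1 := Pool.Agent.W201.pi_sq_lo
  have hP2 := Pool.Agent.W201.pi_sq_hi
  have hpi := Real.pi_pos
  have hpi3 := Real.pi_gt_d4
  have hpi4 := Real.pi_lt_d4
  have hq := Expl.qq_pos
  have hq1 := Expl.qq_lt
  set P := Real.pi ^ 2 with hP
  have hx : (2 * Real.pi * u) ^ 2 = 4 * P * u ^ 2 := by rw [hP]; ring
  have hx0 : 0 < 4 * P * u ^ 2 - 2 := by nlinarith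
  have hf := Pool.Agent.W201.KK_formula u
  rw [hx, ← K_eq] at hf
  set v := u - 1 / 2 with hv
  have hv0 : 0 ≤ v := by linarith
  have hv1 : v ≤ 1 / 5 := by linarith
  have hu : u = v + 1 / 2 := by rw [hv]; ring
  have hsc : Real.pi * u = Real.pi * v + Real.pi / 2 := by rw [hu]; ring
  have hs : Real.sin (Real.pi * u) = Real.cos (Real.pi * v) := by
    rw [hsc, Real.sin_add_pi_div_two]
  have hc : Real.cos (Real.pi * u) = - Real.sin (Real.pi * v) := by
    rw [hsc, Real.cos_add_pi_div_two]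
  rw [hs, hc] at hf
  have h3 := Real.one_sub_sq_div_two_le_cos (x := Real.pi * v)
  have h8 : 1 - 4.93485 * v ^ 2 ≤ Real.cos (Real.pi * v) := by
    refine le_trans ?_ h3
    rw [mul_pow]
    have : 0 ≤ v ^ 2 := sq_nonneg _
    norm_num at hP2 ⊢
    nlinarith
  have hw2 : 0 ≤ 1 - 4.93485 * v ^ 2 := by
    norm_num
    nlinarith
  have h9 : 3.1415 * v - 5.168 * v ^ 3 ≤ Real.sin (Real.pi * v) := by
    refine le_trans ?_ (Real.sin_ge_sub_cube (x := Real.pi * v) (by positivity))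
    have e1 : (Real.pi * v) ^ 3 / 6 = Real.pi ^ 3 / 6 * v ^ 3 := by ring
    rw [e1]
    have h10 : Real.pi ^ 3 / 6 ≤ 5.168 := by
      have : Real.pi ^ 3 = P * Real.pi := by rw [hP]; ring
      rw [this]
      norm_num at hP2 hpi4 ⊢
      nlinarith
    have h11 : Real.pi ^ 3 / 6 * v ^ 3 ≤ 5.168 * v ^ 3 := mul_le_mul_of_nonneg_right h10 (by positivity)
    have h12 : 3.1415 * v ≤ Real.pi * v := mul_le_mul_of_nonneg_right hpi3.le hv0
    linarith
  have hu0 : 0 ≤ u := by linarith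
  -- divide by `qq`
  have h13 : Expl.qq * (6.283 * u * (1 - 4.93485 * v ^ 2) / 1.21) ≤
      2 * Real.pi * u * Real.cos (Real.pi * v) := by
    have e2 : Expl.qq * (6.283 * u * (1 - 4.93485 * v ^ 2) / 1.21) =
      (Expl.qq / 1.21) * (6.283 * u * (1 - 4.93485 * v ^ 2)) := by ring
    rw [e2]
    have h14 : Expl.qq / 1.21 ≤ 1 := by rw [div_le_one (by norm_num)]; exact hq1
    have h15 : 6.283 * u ≤ 2 * Real.pi * u := by
      apply mul_le_mul_of_nonneg_right _ hu0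
      norm_num at hpi3 ⊢
      linarith
    have h16 : 6.283 * u * (1 - 4.93485 * v ^ 2) ≤ 2 * Real.pi * u * Real.cos (Real.pi * v) := by
      calc 6.283 * u * (1 - 4.93485 * v ^ 2) ≤ 2 * Real.pi * u * (1 - 4.93485 * v ^ 2) :=
            mul_le_mul_of_nonneg_right h15 hw2
        _ ≤ 2 * Real.pi * u * Real.cos (Real.pi * v) := mul_le_mul_of_nonneg_left h8 (by positivity)
    have h17 : 0 ≤ 6.283 * u * (1 - 4.93485 * v ^ 2) := mul_nonneg (by positivity) hw2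
    calc Expl.qq / 1.21 * (6.283 * u * (1 - 4.93485 * v ^ 2)) ≤ 1 * (6.283 * u * (1 - 4.93485 * v ^ 2)) :=
          mul_le_mul_of_nonneg_right h14 h17
      _ ≤ _ := by rw [one_mul]; exact h16
  have h18 : (4 * P * u ^ 2 - 2) * k ≤ (39.4788 * u ^ 2 - 2) * k := by
    apply mul_le_mul_of_nonneg_right _ hk0
    have : 0 ≤ u ^ 2 := sq_nonneg u
    norm_num at hP2 ⊢
    nlinarith
  have h19 := mul_le_mul_of_nonneg_left (h18.trans hk) hq.le
  have h20 : Expl.qq * (3.1415 * v - 5.168 * v ^ 3) ≤ Expl.qq * Real.sin (Real.pi * v) :=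
    mul_le_mul_of_nonneg_left h9 hq.le
  have h21 : Expl.qq * ((4 * P * u ^ 2 - 2) * k) ≤ Expl.qq * ((4 * P * u ^ 2 - 2) * K u) := by
    have e3 : Expl.qq * ((4 * P * u ^ 2 - 2) * K u) =
        2 * (2 * Real.pi * u * Real.cos (Real.pi * v) - Expl.qq * -Real.sin (Real.pi * v)) := by
      rw [← hf]; ring
    rw [e3]
    have e4 : Expl.qq * (2 * (6.283 * u * (1 - 4.93485 * v ^ 2) / 1.21 + 3.1415 * v - 5.168 * v ^ 3)) =
        2 * (Expl.qq * (6.283 * u * (1 - 4.93485 * v ^ 2) / 1.21)) +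
          2 * (Expl.qq * (3.1415 * v - 5.168 * v ^ 3)) := by ring
    rw [e4] at h19
    linarith
  exact le_of_mul_le_mul_left (le_of_mul_le_mul_left h21 hq) hx0

theorem gn56 : 2 / 3 ≤ gn 0.56 := by
  have h : (0.5834 : ℝ) ≤ K 0.56 := K_mid (by norm_num) (by norm_num) (by norm_num) (by norm_num)
  have h2 := gn_ge h (by norm_num)
  norm_num at h2 ⊢
  linarith

theorem gn60 : 0.57 ≤ gn 0.6 := by
  have h : (0.535 : ℝ) ≤ K 0.6 := K_mid (by norm_num) (by norm_num) (by norm_num) (by norm_num)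
  have h2 := gn_ge h (by norm_num)
  norm_num at h2 ⊢
  linarith

theorem gn65 : 0.441 ≤ gn 0.65 := by
  have h : (0.47 : ℝ) ≤ K 0.65 := K_mid (by norm_num) (by norm_num) (by norm_num) (by norm_num)
  have h2 := gn_ge h (by norm_num)
  norm_num at h2 ⊢
  linarith

end Pool.Agent.Q32.Gap
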