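import Pool.Agent.Q32.Gap.Half3
import Pool.Agent.H24R3.PairsShort2
import Pool.Agent.H295R2.Iso.A

set_option autoImplicit false

/-!
# The proportion of the short gaps: intervals
-/

open scoped BigOperators ComplexConjugate
open Finset MeasureTheory Complex Filter Topology

namespace Pool.Agent.Q32.Gap

open H370 H370.A2 H295SI TH803UC TH803CL

/-- collecting the estimates -/
theorem collect {c ε M N K' q m x1 x2 : ℝ} (hc1 : 5 / 4 ≤ c) (hc2 : c ≤ 1.327503) (hε : 0 < ε)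
    (hε1 : ε ≤ 1) (hM0 : 0 < M) (hx1 : 0 ≤ x1) (hx1K : x1 ≤ K') (hKN : K' ≤ N) (hx2 : x2 ≤ N - K' + 1)
    (hx20 : 0 ≤ x2) (hm0 : 0 ≤ m) (hm1 : m ≤ 2 / 3) (hwb : (m - ε / 16) * x1 ≤ q - K')
    (hq : q ≤ M * (c + ε / 8 + ε / 100)) (hK : M * (1 - 7 * (ε / 100)) ≤ K')
    (hout : N - K' + 3 ≤ ε / 32 * M) :
    M ≤ (1 + ε) * N ∧ m * (x1 + x2) + 1 ≤ (c - 1 + ε) * N := by
  have hK0 : 0 ≤ K' := hx1.trans hx1K
  have hN0 : 0 ≤ N := hK0.trans hKN
  have h1 : m * x1 ≤ q - K' + ε / 16 * N := by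
    have a1 : ε / 16 * x1 ≤ ε / 16 * N := mul_le_mul_of_nonneg_left (hx1K.trans hKN) (by positivity)
    have a2 : (m - ε / 16) * x1 = m * x1 - ε / 16 * x1 := by ring
    linarith
  have h2 : m * x2 ≤ x2 := mul_le_of_le_one_left hx20 (by linarith)
  have h3 : m * (x1 + x2) + 1 ≤ M * (c - 1 + ε / 8 + 8 * (ε / 100) + ε / 32) + ε / 16 * N := by
    have a1 : M * (c - 1 + ε / 8 + 8 * (ε / 100) + ε / 32) = M * (c + ε / 8 + ε / 100) -
      M * (1 - 7 * (ε / 100)) + ε / 32 * M := by ring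
    rw [a1, mul_add]
    linarith
  have h7 : M ≤ N * (1 + 14 * (ε / 100)) := by
    have a1 : M * (1 - 7 * (ε / 100)) ≤ N := hK.trans hKN
    have a2 : M ≤ M * (1 - 7 * (ε / 100)) * (1 + 14 * (ε / 100)) := by
      have b1 : M * (1 - 7 * (ε / 100)) * (1 + 14 * (ε / 100)) - M = M * (ε / 100) * (7 - 98 * (ε / 100)) := by
        ring
      have b2 : 0 ≤ M * (ε / 100) * (7 - 98 * (ε / 100)) := mul_nonneg (by positivity) (by linarith)
      linarith
    exact a2.trans (mul_le_mul_of_nonneg_right a1 (by linarith))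
  have h9 : M * (c - 1 + ε / 8 + 8 * (ε / 100) + ε / 32) ≤
      N * (1 + 14 * (ε / 100)) * (c - 1 + ε / 8 + 8 * (ε / 100) + ε / 32) :=
    mul_le_mul_of_nonneg_right h7 (by linarith)
  have h10 : (1 + 14 * (ε / 100)) * (c - 1 + ε / 8 + 8 * (ε / 100) + ε / 32) + ε / 16 ≤ c - 1 + ε := by
    have b1 : c - 1 ≤ 1 / 3 := by norm_num at hc2 ⊢; linarith
    have b3 : 14 * (ε / 100) * (c - 1) ≤ 14 * (ε / 100) * (1 / 3) :=
      mul_le_mul_of_nonneg_left b1 (by positivity)
    have b4 : ε ^ 2 ≤ ε := by nlinarith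
    have e : (1 + 14 * (ε / 100)) * (c - 1 + ε / 8 + 8 * (ε / 100) + ε / 32) + ε / 16 =
      (c - 1) + 14 * (ε / 100) * (c - 1) + (ε / 8 + 8 * (ε / 100) + ε / 32 + ε / 16) +
        14 / 100 * (1 / 8 + 8 / 100 + 1 / 32) * ε ^ 2 := by ring
    rw [e]
    linarith
  have h11 := mul_le_mul_of_nonneg_right h10 hN0
  refine ⟨?_, by linarith⟩
  have h12 : N * (1 + 14 * (ε / 100)) ≤ (1 + ε) * N := by nlinarith
  linarith

theorem half_main {F : ℂ → ℂ} (hF : GoodL F) (lam ε : ℝ) (h0 : 0 < lam) (h1 : lam ≤ 1) (hε : 0 < ε)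
    (hε1 : ε ≤ 1) :
    ∃ d : ℝ, 0 < d ∧ d < 1 ∧ ∃ T0 : ℝ, 10 ≤ T0 ∧ ∀ T : ℝ, T0 ≤ T → ∀ H : ℝ,
      T ^ (1 - d) ≤ H → H ≤ T → H / (2 * Real.pi) * Real.log T ≤ (1 + ε) * NN F T (T + H) ∧
        ∀ S : Finset ℕ, (∀ j ∈ S, 1 ≤ j ∧ j ≤ NN F T (T + H) ∧
          volume {t : ℝ | T < t ∧ t < T + H ∧ NN F T t = j} ≤
            ENNReal.ofReal (lam * (2 * Real.pi / Real.log T))) →
        min (2 / 3) (gn lam) * (S.card : ℝ) + 1 ≤ (cMTinv - 1 + ε) * NN F T (T + H) := by
  classical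
  have hpi := Real.pi_pos
  have hpi4 := Real.pi_lt_d4
  have hcl := H344.cMTinv_ge
  have hcn := Expl.cMTinv_num
  have hg0 : 0 ≤ gn lam := by
    have := K_nonneg h0.le h1
    unfold gn
    split_ifs with c
    · positivity
    · push Not at c
      linarith
  -- choice of the exponent
  obtain ⟨ρ, hρ0, hρ⟩ : ∃ ρ : ℝ, 0 < ρ ∧ ∀ θ : ℝ, |θ - 1| < ρ → H295Iso.c0 θ ≤ cMTinv + ε / 8 := by
    have hcont := H295Iso.c0_cont (h := 1) one_pos
    have h1 : ∀ᶠ x in 𝓝 (1 : ℝ), H295Iso.c0 x < H295Iso.c0 1 + ε / 8 :=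
      hcont.eventually (gt_mem_nhds (by linarith))
    rw [Metric.eventually_nhds_iff] at h1
    obtain ⟨ρ, hρ0, hρ⟩ := h1
    refine ⟨ρ, hρ0, fun θ hθ => ?_⟩
    have := hρ (y := θ) (by rw [Real.dist_eq]; exact hθ)
    rw [Pool.Agent.H24R3.PairsShort.c0_one] at this
    exact this.le
  set d : ℝ := min (ρ / 3) (1 / 10000) with hd
  have hd0 : 0 < d := by rw [hd]; positivity
  have hd1 : d ≤ 1 / 10000 := min_le_right _ _
  have hd2 : d ≤ ρ / 3 := min_le_left _ _
  set θ : ℝ := 1 - d - d with hθ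
  have hθ0 : 0 < θ := by rw [hθ]; linarith
  have hθ1 : θ ≤ 1 := by rw [hθ]; linarith
  have hcθ : H295Iso.c0 θ ≤ cMTinv + ε / 8 := by
    apply hρ
    rw [hθ, show 1 - d - d - 1 = -(2 * d) by ring, abs_neg, abs_of_pos (by linarith)]
    linarith
  set η : ℝ := ε / 100 with hη
  have hη0 : 0 < η := by rw [hη]; positivity
  obtain ⟨T1, hT1, hPC⟩ := H295Iso.pairShort hF (1 - d) d η hd0 (by linarith) (by linarith) hη0
  obtain ⟨C, hC, hends⟩ := ends2 hF
  -- large `T`
  have htop : Tendsto (fun T : ℝ => T ^ (1 - d)) atTop atTop := tendsto_rpow_atTop (by linarith)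
  obtain ⟨T2, hT2⟩ := (htop.eventually_ge_atTop (max (64 * Real.pi * (C + 3) / ε) 6)).exists_forall_of_atTop
  obtain ⟨T3, hT3⟩ := (Real.tendsto_log_atTop.eventually_ge_atTop
    (max 1 (2 * Real.pi / (ε / 4)))).exists_forall_of_atTop
  suffices hall : ∀ T : ℝ, max (max T1 T2) (max T3 10) ≤ T → ∀ H : ℝ,
      T ^ (1 - d) ≤ H → H ≤ T → ∀ S : Finset ℕ, (∀ j ∈ S, 1 ≤ j ∧ j ≤ NN F T (T + H) ∧
          volume {t : ℝ | T < t ∧ t < T + H ∧ NN F T t = j} ≤
            ENNReal.ofReal (lam * (2 * Real.pi / Real.log T))) →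
        H / (2 * Real.pi) * Real.log T ≤ (1 + ε) * NN F T (T + H) ∧
        min (2 / 3) (gn lam) * (S.card : ℝ) + 1 ≤ (cMTinv - 1 + ε) * NN F T (T + H) from
    ⟨d, hd0, by linarith, max (max T1 T2) (max T3 10),
      (le_max_right _ _).trans (le_max_right _ _), fun T hTT H hH hHT =>
        ⟨(hall T hTT H hH hHT ∅ (by simp)).1, fun S hS => (hall T hTT H hH hHT S hS).2⟩⟩
  intro T hTT H hH hHT S hS
  have hTT1 : T1 ≤ T := ((le_max_left _ _).trans (le_max_left _ _)).trans hTT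
  have hTT2 := hT2 T (((le_max_right _ _).trans (le_max_left _ _)).trans hTT)
  have hTT3 := hT3 T (((le_max_left _ _).trans (le_max_right _ _)).trans hTT)
  have hT10 : 10 ≤ T := ((le_max_right _ _).trans (le_max_right _ _)).trans hTT
  have hHC : 64 * Real.pi * (C + 3) / ε ≤ H := ((le_max_left _ _).trans hTT2).trans hH
  have hH6 : 6 ≤ H := ((le_max_right _ _).trans hTT2).trans hH
  have hlog1 : 1 ≤ Real.log T := (le_max_left _ _).trans hTT3
  have hlog2 : 2 * Real.pi / (ε / 4) ≤ Real.log T := (le_max_right _ _).trans hTT3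
  have hlog : 0 < Real.log T := by linarith
  obtain ⟨U1, U2, hU1, hU1', hU2, hU2', hNN, hQQ⟩ := hPC T hTT1 H hH hHT
  have he := hends T hT10 H hH6 hHT
  set σ : ℝ := 2 * Real.pi / Real.log T with hσ
  have hσ0 : 0 < σ := by positivity
  have hσ1 : σ ≤ ε / 4 := by
    rw [hσ, div_le_iff₀ hlog]
    rw [div_le_iff₀ (by positivity)] at hlog2
    linarith
  have hT1' : (1 : ℝ) ≤ T := by linarith
  have hU12 : U1 ≤ U2 := by linarith
  set Λ : ℝ := (1 - d - d) * Real.log T with hΛ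
  have hΛσ : Λ * σ = 2 * Real.pi * θ := by
    rw [hΛ, hσ, hθ]; field_simp
  -- the count
  set a := NN F T U1 with ha
  set K' := NN F U1 U2 with hK
  have hsplit1 : NN F T U2 = a + K' := NN_add hF hT1' hU1 hU12
  have hsplit2 : NN F T (T + H) = NN F T U2 + NN F U2 (T + H) :=
    NN_add hF hT1' (hU1.trans hU12) hU2'
  have hmid : (NN F (T + 2) (T + H - 2) : ℝ) ≤ K' := by
    exact_mod_cast NN_mono hF (by linarith : (1 : ℝ) ≤ U1) (by linarith) (by linarith)
  set S1 := S.filter (fun j => a < j ∧ j + 1 ≤ a + K') with hS1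
  set S2 := S.filter (fun j => ¬ (a < j ∧ j + 1 ≤ a + K')) with hS2
  have hcard : S.card = S1.card + S2.card := (card_filter_add_card_filter_not _).symm
  have hS2c : S2.card ≤ a + (NN F T (T + H) - (a + K') + 1) := by
    have hsub : S2 ⊆ Icc 1 a ∪ Icc (a + K') (NN F T (T + H)) := by
      intro j hj
      rw [hS2, mem_filter] at hj
      obtain ⟨hj1, hj2⟩ := hj
      obtain ⟨h1, h2, -⟩ := hS j hj1
      rw [mem_union, mem_Icc, mem_Icc]
      omega
    refine (card_le_card hsub).trans ((card_union_le _ _).trans ?_)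
    rw [Nat.card_Icc, Nat.card_Icc]
    omega
  have hS2r : (S2.card : ℝ) ≤ (NN F T (T + H) : ℝ) - K' + 1 := by
    have h1 : S2.card + K' ≤ NN F T (T + H) + 1 := by omega
    have h2 : (S2.card : ℝ) + K' ≤ NN F T (T + H) + 1 := by exact_mod_cast h1
    linarith
  have hS1r : (S1.card : ℝ) ≤ K' := by
    have hsub : S1 ⊆ Ioc a (a + K') := by
      intro j hj
      rw [hS1, mem_filter] at hj
      rw [mem_Ioc]
      omega
    have h2 := card_le_card hsub
    rw [Nat.card_Ioc] at h2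
    have h3 : S1.card ≤ K' := by omega
    exact_mod_cast h3
  have hadd : ∀ t : ℝ, U1 < t → NN F T t = a + NN F U1 t := fun t ht => NN_add hF hT1' hU1 ht.le
  have hD0 : 0 ≤ lam * σ := by positivity
  set s : ℝ := max 0 (gn lam - σ ^ 2 / 4) with hs
  have hs0 : 0 ≤ s := le_max_left _ _
  have hwb := window_half hF (A := U1) (B := U2) (by linarith) (Λ := Λ) (D := lam * σ) (s := s) hs0 hD0 (by
      intro x y hxy hdist
      rcases le_or_gt (gn lam - σ ^ 2 / 4) 0 with hneg | hpos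
      · refine ⟨0, by norm_num, ?_⟩
        rw [hs, max_eq_left hneg]
        norm_num
      · rw [hs, max_eq_right hpos.le]
        exact link h0 h1 hθ0.le hθ1 hσ0 hΛσ x y hxy hdist) (S1.image (fun j => j - a)) (by
      intro x hx
      rw [mem_image] at hx
      obtain ⟨j, hj, rfl⟩ := hx
      rw [hS1, mem_filter] at hj
      obtain ⟨hj1, hj2, hj3⟩ := hj
      refine ⟨by omega, by omega, (measure_mono ?_).trans (hS j hj1).2.2⟩
      rintro t ⟨h1, h2, h3⟩
      refine ⟨by linarith, by linarith, ?_⟩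
      rw [hadd t h1, h3]
      omega)
  have hS1c : (S1.image (fun j => j - a)).card = S1.card := by
    refine card_image_of_injOn ?_
    intro x hx y hy hxy
    rw [mem_coe, hS1, mem_filter] at hx hy
    simp only at hxy
    omega
  rw [hS1c] at hwb
  have hKeq : (NN F U1 U2 : ℝ) = K' := rfl
  rw [hKeq] at hwb hNN
  have hcard' : (S.card : ℝ) = S1.card + S2.card := by exact_mod_cast hcard
  -- the main term
  set M : ℝ := H / (2 * Real.pi) * Real.log T with hM
  have hM0 : 0 < M := by positivity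
  have hM1 : H * Real.log T / (2 * Real.pi) = M := by rw [hM]; ring
  have hM2 : H * Real.log T = 2 * Real.pi * M := by rw [hM]; field_simp
  rw [hM1] at hNN hQQ
  rw [hM2] at hNN
  have h2 := (abs_le.mp hNN).1
  set N : ℝ := (NN F T (T + H) : ℝ) with hN
  have hKN : (K' : ℝ) ≤ N := by
    have : K' ≤ NN F T (T + H) := by omega
    rw [hN]
    exact_mod_cast this
  have hout : N - K' ≤ C * Real.log T := by linarith
  have hCM : C * Real.log T + 3 ≤ ε / 32 * M := by
    have a1 : C * Real.log T + 3 ≤ (C + 3) * Real.log T := by nlinarith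
    refine a1.trans ?_
    have a2 : ε / 32 * M = (ε * H / (64 * Real.pi)) * Real.log T := by
      rw [hM]; field_simp; ring
    rw [a2]
    apply mul_le_mul_of_nonneg_right _ hlog.le
    rw [div_le_iff₀ hε] at hHC
    rw [le_div_iff₀ (by positivity)]
    linarith
  have hh2 : M * (1 - 7 * (ε / 100)) ≤ K' := by
    have a0 : η * (2 * Real.pi * M) ≤ 7 * (ε / 100) * M := by
      have a1 : 2 * Real.pi ≤ 7 := by norm_num at hpi4; linarith only [hpi4]
      calc η * (2 * Real.pi * M) = (2 * Real.pi) * (η * M) := by ring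
        _ ≤ 7 * (η * M) := mul_le_mul_of_nonneg_right a1 (mul_nonneg hη0.le hM0.le)
        _ = 7 * (ε / 100) * M := by rw [hη]; ring
    have e : M * (1 - 7 * (ε / 100)) = M - 7 * (ε / 100) * M := by ring
    rw [e]
    linarith only [a0, h2]
  have h5 : QQ F Λ U1 U2 ≤ M * (cMTinv + ε / 8 + ε / 100) :=
    hQQ.trans (mul_le_mul_of_nonneg_left (by rw [← hη]; linarith only [hcθ]) hM0.le)
  have hσ2 : σ ^ 2 / 4 ≤ ε / 16 := by
    have a1 : σ ^ 2 ≤ (ε / 4) ^ 2 := pow_le_pow_left₀ hσ0.le hσ1 2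
    have a2 : (ε / 4) ^ 2 ≤ ε / 16 := by
      have : (ε / 4) ^ 2 = ε / 16 * ε := by ring
      rw [this]
      exact mul_le_of_le_one_right (by positivity) hε1
    have a3 : (0 : ℝ) ≤ ε := hε.le
    linarith only [a1, a2, a3]
  rw [hcard']
  refine collect (K' := K') (q := QQ F Λ U1 U2) hcl hcn hε hε1 hM0 (Nat.cast_nonneg _) hS1r hKN hS2r
    (Nat.cast_nonneg _) (le_min (by norm_num) hg0) (min_le_left _ _) ?_ h5 hh2 (by linarith only [hout, hCM])
  refine le_trans ?_ hwb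
  apply mul_le_mul_of_nonneg_right _ (Nat.cast_nonneg _)
  have hε0 : (0 : ℝ) ≤ ε := hε.le
  rcases le_total (2 / 3) s with c | c
  · rw [min_eq_left c]
    have : min (2 / 3) (gn lam) ≤ 2 / 3 := min_le_left _ _
    linarith only [this, hε0]
  · rw [min_eq_right c]
    have a1 : gn lam - σ ^ 2 / 4 ≤ s := le_max_right _ _
    have a2 : min (2 / 3) (gn lam) ≤ gn lam := min_le_right _ _
    linarith only [a1, a2, hσ2]

end Pool.Agent.Q32.Gap
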