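import Pool.Agent.Q32.Gap.Zeta

set_option autoImplicit false

/-!
# The residue classes of the number of the zeros
-/

open Finset MeasureTheory Complex Filter Topology

namespace Pool.Agent.Q32.Gap

open H370 H295SI

/-- the residue class -/
def cls (q a : ℕ) : Set ℕ := {n : ℕ | n ≡ a [MOD q]}

theorem cls_sparse {q a : ℕ} (hq : 3 ≤ q) : ∀ n ∈ cls q a, n + 1 ∉ cls q a ∧ n + 2 ∉ cls q a := by
  have key : ∀ n j : ℕ, 0 < j → j < q → n ∈ cls q a → n + j ∉ cls q a := by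
    intro n j hj hjq h1 h2
    have h3 : n + j ≡ n + 0 [MOD q] := Nat.ModEq.trans h2 (Nat.ModEq.symm h1)
    have h5 := Nat.ModEq.add_left_cancel' n h3
    have h6 : q ∣ j := Nat.modEq_zero_iff_dvd.1 h5
    have := Nat.le_of_dvd hj h6
    omega
  exact fun n hn => ⟨key n 1 one_pos (by omega) hn, key n 2 two_pos (by omega) hn⟩

theorem count_fin (A : Set ℕ) (m n : ℕ) [DecidablePred (· ∈ A)] :
    count A m n = ((Ioc m n).filter (· ∈ A)).card := by
  unfold count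
  rw [← Set.ncard_coe_finset]
  congr 1
  ext x
  rw [Set.mem_inter_iff, Set.mem_Ioc, mem_coe, mem_filter, mem_Ioc]
  exact and_comm

theorem count_add (A : Set ℕ) (m k l : ℕ) :
    count A m (m + k + l) = count A m (m + k) + count A (m + k) (m + k + l) := by
  classical
  rw [count_fin, count_fin, count_fin, ← card_union_of_disjoint]
  · congr 1
    ext x
    rw [mem_union, mem_filter, mem_filter, mem_filter, mem_Ioc, mem_Ioc, mem_Ioc]
    constructor
    · rintro ⟨⟨h1, h2⟩, h3⟩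
      by_cases h : x ≤ m + k
      · exact Or.inl ⟨⟨h1, h⟩, h3⟩
      · exact Or.inr ⟨⟨by omega, h2⟩, h3⟩
    · rintro (⟨⟨h1, h2⟩, h3⟩ | ⟨⟨h1, h2⟩, h3⟩)
      · exact ⟨⟨h1, by omega⟩, h3⟩
      · exact ⟨⟨by omega, h2⟩, h3⟩
  · rw [disjoint_left]
    intro x h1 h2
    rw [mem_filter, mem_Ioc] at h1 h2
    omega

theorem count_cls (q a m k : ℕ) (hq : 2 ≤ q) :
    (k : ℝ) / q - 1 ≤ (count (cls q a) m (m + k) : ℝ) := by
  classical
  have hq0 : 0 < q := by omega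
  have hqr : (0 : ℝ) < q := by exact_mod_cast hq0
  induction k using Nat.strong_induction_on with
  | _ k ih =>
    by_cases hk : k < q
    · have h1 : (k : ℝ) / q ≤ 1 := by
        rw [div_le_one hqr]
        exact_mod_cast hk.le
      have h2 : (0 : ℝ) ≤ (count (cls q a) m (m + k) : ℝ) := Nat.cast_nonneg _
      linarith
    · push Not at hk
      obtain ⟨j, rfl⟩ := Nat.exists_eq_add_of_le' hk
      have h1 := ih j (by omega)
      rw [← add_assoc, count_add]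
      have h2 : 1 ≤ count (cls q a) (m + j) (m + j + q) := by
        rw [count_fin, Nat.one_le_iff_ne_zero, ← Nat.pos_iff_ne_zero, Finset.card_pos]
        refine ⟨m + j + 1 + (a + q * (m + j + 1) - (m + j + 1)) % q, ?_⟩
        rw [Finset.mem_filter, Finset.mem_Ioc]
        have h3 : (a + q * (m + j + 1) - (m + j + 1)) % q < q := Nat.mod_lt _ hq0
        refine ⟨⟨by omega, by omega⟩, ?_⟩
        have h4 : m + j + 1 ≤ a + q * (m + j + 1) := by nlinarith
        change m + j + 1 + (a + q * (m + j + 1) - (m + j + 1)) % q ≡ a [MOD q]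
        calc m + j + 1 + (a + q * (m + j + 1) - (m + j + 1)) % q
            ≡ m + j + 1 + (a + q * (m + j + 1) - (m + j + 1)) [MOD q] :=
              Nat.ModEq.add_left _ (Nat.mod_modEq _ _)
          _ = a + q * (m + j + 1) := by omega
          _ ≡ a + 0 [MOD q] := Nat.ModEq.add_left _ (Nat.modEq_zero_iff_dvd.2 (dvd_mul_right _ _))
          _ = a := by omega
      have h3 : (1 : ℝ) ≤ (count (cls q a) (m + j) (m + j + q) : ℝ) := by exact_mod_cast h2
      push_cast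
      rw [add_div, div_self hqr.ne']
      linarith

theorem gap_meas (n : ℕ) : MeasurableSet {t : ℝ | N 0 t = n} := by
  have h : Monotone (fun t : ℝ => N 0 t) := fun s t h => N_mono' h
  exact h.measurable (measurableSet_singleton n)

/-- **the measure of the heights with index in a given set** -/
theorem measure_long (A : Set ℕ) {T H ℓ : ℝ} (hT : 0 ≤ T) (hH : 0 ≤ H) (hℓ : 0 ≤ ℓ) :
    ((long A (N 0 T) (N 0 (T + H)) ℓ : ℝ) - 1) * ℓ ≤
      (volume {t : ℝ | T < t ∧ t ≤ T + H ∧ N 0 t ∈ A}).toReal := by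
  classical
  set a := N 0 T with ha
  set b := N 0 (T + H) with hb
  set Lg := (Ioc a b).filter (fun n => n ∈ A ∧ ℓ ≤ gap n) with hLg
  have hlong : long A a b ℓ = Lg.card := by
    unfold long
    rw [← Set.ncard_coe_finset]
    congr 1
    ext x
    rw [hLg, Set.mem_ofPred_eq, mem_coe, mem_filter, mem_Ioc]
    exact ⟨fun h => ⟨⟨h.2.1, h.2.2.1⟩, h.1, h.2.2.2⟩, fun h => ⟨h.2.1, h.1.1, h.1.2, h.2.2⟩⟩
  set L2 := Lg.erase b with hL2
  have hL2m : ∀ n ∈ L2, n ∈ A ∧ a < n ∧ n < b ∧ ℓ ≤ gap n := by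
    intro n hn
    rw [hL2, mem_erase, hLg, mem_filter, mem_Ioc] at hn
    obtain ⟨h1, ⟨h2, h3⟩, h4, h5⟩ := hn
    exact ⟨h4, h2, by omega, h5⟩
  have hc1 : (Lg.card : ℝ) - 1 ≤ L2.card := by
    have h0 : Lg.card - 1 ≤ L2.card := pred_card_le_card_erase
    have h2 : Lg.card ≤ L2.card + 1 := by omega
    have h3 : (Lg.card : ℝ) ≤ L2.card + 1 := by exact_mod_cast h2
    linarith
  have hsub : ∀ n ∈ L2, {t : ℝ | N 0 t = n} ⊆ {t : ℝ | T < t ∧ t ≤ T + H ∧ N 0 t ∈ A} := by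
    intro n hn t ht
    obtain ⟨h1, h2, h3, -⟩ := hL2m n hn
    have h4 := ht
    rw [gap_set hT h2 h3] at h4
    refine ⟨h4.1, h4.2.1.le, ?_⟩
    rw [Set.mem_ofPred_eq] at ht
    rw [ht]
    exact h1
  have hfin : volume {t : ℝ | T < t ∧ t ≤ T + H ∧ N 0 t ∈ A} ≠ ⊤ := by
    refine ne_top_of_le_ne_top ?_ (measure_mono (t := Set.Icc T (T + H)) ?_)
    · rw [Real.volume_Icc]
      exact ENNReal.ofReal_ne_top
    · rintro t ⟨b1, b2, -⟩
      exact ⟨b1.le, b2⟩
  have hun : ∑ n ∈ L2, volume {t : ℝ | N 0 t = n} ≤ volume {t : ℝ | T < t ∧ t ≤ T + H ∧ N 0 t ∈ A} := by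
    rw [← measure_biUnion_finset (fun i _ j _ hij => ?_) (fun n _ => gap_meas n)]
    · refine measure_mono (Set.iUnion₂_subset hsub)
    · simp only [Function.onFun]
      rw [Set.disjoint_left]
      intro t h1 h2
      exact hij (h1.symm.trans h2)
  have hfn : ∀ n ∈ L2, volume {t : ℝ | N 0 t = n} ≠ ⊤ := fun n hn =>
    ne_top_of_le_ne_top hfin (measure_mono (hsub n hn))
  have h5 : (∑ n ∈ L2, volume {t : ℝ | N 0 t = n}).toReal = ∑ n ∈ L2, gap n :=
    ENNReal.toReal_sum hfn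
  have h6 := ENNReal.toReal_mono hfin hun
  rw [h5] at h6
  rw [hlong]
  refine le_trans ?_ h6
  calc ((Lg.card : ℝ) - 1) * ℓ ≤ L2.card * ℓ := mul_le_mul_of_nonneg_right hc1 hℓ
    _ = ∑ n ∈ L2, ℓ := by rw [sum_const, nsmul_eq_mul]
    _ ≤ _ := sum_le_sum fun n hn => (hL2m n hn).2.2.2

/-- the number of zeros in a dyadic interval -/
theorem N_dyadic : ∃ C : ℝ, 0 < C ∧ ∀ T : ℝ, 10 ≤ T →
    T * Real.log T / (2 * Real.pi) - C * (T + Real.log T ^ 2) ≤ N T (T + T) := by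
  obtain ⟨C, hC, h⟩ := H965SI.countShort riemannZeta good_zeta
  refine ⟨C, hC, fun T hT => ?_⟩
  have h1 := (h T hT T (by linarith) le_rfl T (T + T) le_rfl (by linarith) (by linarith) le_rfl).1
  rw [N_eq]
  linarith [(abs_le.1 h1).1]

/-- **residue classes** -/
theorem residue (q : ℕ) (hq : 3 ≤ q) (δ κ : ℝ) (hδ : 0 < δ) (hδ1 : δ ≤ 9 / 10) (hκ0 : 0 < κ)
    (hκ : κ < δ / (2 * Real.pi) * (1 / q - (c 1 - 1) / 2 - 51 / 100 * δ ^ 2)) :
    ∃ T0 : ℝ, ∀ T : ℝ, T0 ≤ T → ∀ a : ℕ,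
      κ * T ≤ (volume {t : ℝ | T < t ∧ t ≤ 2 * T ∧ N 0 t ≡ a [MOD q]}).toReal := by
  have hpi := Real.pi_pos
  have hqr : (0 : ℝ) < q := by exact_mod_cast (by omega : 0 < q)
  set ρ : ℝ := 1 / q - (c 1 - 1) / 2 - 51 / 100 * δ ^ 2 with hρ
  have hδπ : 0 < δ / (2 * Real.pi) := by positivity
  obtain ⟨ρ', hρ'0, hρ'1, hρ'2⟩ : ∃ ρ' : ℝ, 0 < ρ' ∧ ρ' < ρ ∧ κ < δ / (2 * Real.pi) * ρ' := by
    have h1 : κ / (δ / (2 * Real.pi)) < ρ := by
      rw [div_lt_iff₀ hδπ]
      linarith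
    have h0 : 0 < κ / (δ / (2 * Real.pi)) := by positivity
    refine ⟨(κ / (δ / (2 * Real.pi)) + ρ) / 2, by linarith, by linarith, ?_⟩
    rw [← div_lt_iff₀' hδπ]
    linarith
  obtain ⟨T1, hT1, hlong⟩ := long_main 1 (ρ - ρ') δ one_pos le_rfl (by linarith) hδ hδ1
  obtain ⟨C, hC, hN⟩ := N_dyadic
  -- the limit
  have hlim : Tendsto (fun T : ℝ => δ * (ρ' * (1 / (2 * Real.pi) - C * (1 / Real.log T + Real.log T / T)) -
      3 / (T * Real.log T))) atTop (𝓝 (δ * (ρ' * (1 / (2 * Real.pi) - C * (0 + 0)) - 0))) := by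
    have t1 : Tendsto (fun T : ℝ => 1 / Real.log T) atTop (𝓝 0) :=
      tendsto_const_nhds.div_atTop Real.tendsto_log_atTop
    have t2 : Tendsto (fun T : ℝ => Real.log T / T) atTop (𝓝 0) :=
      Real.isLittleO_log_id_atTop.tendsto_div_nhds_zero
    have t3 : Tendsto (fun T : ℝ => 3 / (T * Real.log T)) atTop (𝓝 0) :=
      tendsto_const_nhds.div_atTop (tendsto_id.atTop_mul_atTop₀ Real.tendsto_log_atTop)
    exact (((tendsto_const_nhds.sub ((t1.add t2).const_mul C)).const_mul ρ').sub t3).const_mul δ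
  have hev : ∀ᶠ T : ℝ in atTop, κ < δ * (ρ' * (1 / (2 * Real.pi) - C * (1 / Real.log T + Real.log T / T)) -
      3 / (T * Real.log T)) := by
    refine hlim.eventually_const_lt ?_
    refine hρ'2.trans_le (le_of_eq ?_)
    field_simp
    ring
  obtain ⟨T2, hT2⟩ := hev.exists_forall_of_atTop
  refine ⟨max T1 T2, fun T hT a => ?_⟩
  have hTT1 : T1 ≤ T := (le_max_left _ _).trans hT
  have hTT2 : T2 ≤ T := (le_max_right _ _).trans hT
  have hT10 : 10 ≤ T := hT1.trans hTT1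
  have hT0 : 0 < T := by linarith
  have hL : 0 < Real.log T := Real.log_pos (by linarith)
  have h1 := hlong T hTT1 T (by rw [Real.rpow_one]) le_rfl (cls q a) (cls_sparse hq)
  have h2 := measure_long (cls q a) hT0.le hT0.le (ℓ := δ / Real.log T) (by positivity)
  have h3 : {t : ℝ | T < t ∧ t ≤ T + T ∧ N 0 t ∈ cls q a} =
      {t : ℝ | T < t ∧ t ≤ 2 * T ∧ N 0 t ≡ a [MOD q]} := by
    ext t
    rw [Set.mem_ofPred_eq, Set.mem_ofPred_eq, two_mul]
    rfl
  rw [h3] at h2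
  refine le_trans ?_ h2
  have hsp : N 0 (T + T) = N 0 T + N T (T + T) := N_split le_rfl hT0.le (by linarith)
  have h4 := count_cls q a (N 0 T) (N T (T + T)) (by omega)
  rw [← hsp] at h4
  have h5 := hN T hT10
  have h6 := (hT2 T hTT2).le
  set Nd : ℝ := ((N T (T + T) : ℕ) : ℝ) with hNd
  have h7 : ρ' * Nd - 2 ≤ (long (cls q a) (N 0 T) (N 0 (T + T)) (δ / Real.log T) : ℝ) := by
    have e : (c 1 - 1) / 2 + 51 / 100 * δ ^ 2 + (ρ - ρ') = 1 / q - ρ' := by
      rw [hρ]; ring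
    rw [e] at h1
    have e2 : Nd / q = 1 / q * Nd := by ring
    rw [e2] at h4
    linarith
  have h8 : ρ' * (T * Real.log T / (2 * Real.pi) - C * (T + Real.log T ^ 2)) ≤ ρ' * Nd :=
    mul_le_mul_of_nonneg_left h5 hρ'0.le
  calc κ * T ≤ (δ * (ρ' * (1 / (2 * Real.pi) - C * (1 / Real.log T + Real.log T / T)) -
      3 / (T * Real.log T))) * T := mul_le_mul_of_nonneg_right h6 hT0.le
    _ = (ρ' * (T * Real.log T / (2 * Real.pi) - C * (T + Real.log T ^ 2)) - 3) * (δ / Real.log T) := by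
      field_simp
    _ ≤ ((long (cls q a) (N 0 T) (N 0 (T + T)) (δ / Real.log T) : ℝ) - 1) * (δ / Real.log T) := by
      refine mul_le_mul_of_nonneg_right ?_ (by positivity)
      linarith

theorem dyadic_tendsto (C : ℝ) :
    Tendsto (fun T : ℝ => T * Real.log T / (2 * Real.pi) - C * (T + Real.log T ^ 2)) atTop atTop := by
  have hpi := Real.pi_pos
  have t1 : Tendsto (fun T : ℝ => Real.log T / (2 * Real.pi) - C * (1 + Real.log T ^ 2 / T)) atTop atTop := by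
    have a1 : Tendsto (fun T : ℝ => Real.log T / (2 * Real.pi)) atTop atTop :=
      Real.tendsto_log_atTop.atTop_div_const (by positivity)
    have a2 : Tendsto (fun T : ℝ => -(C * (1 + Real.log T ^ 2 / T))) atTop (𝓝 (-(C * (1 + 0)))) := by
      refine (Tendsto.const_mul C (tendsto_const_nhds.add ?_)).neg
      exact (Real.isLittleO_pow_log_id_atTop (n := 2)).tendsto_div_nhds_zero
    exact a1.atTop_add a2
  have t2 := t1.atTop_mul_atTop₀ tendsto_id
  refine t2.congr' ?_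
  filter_upwards [eventually_gt_atTop (0 : ℝ)] with T hT
  simp only [id]
  field_simp

/-- **all gaps** -/
theorem all_gaps (δ ε : ℝ) (hδ : 0 < δ) (hδ1 : δ ≤ 9 / 10) (hε : 0 < ε) :
    ∃ T0 : ℝ, ∀ T : ℝ, T0 ≤ T →
      (1 - 3 * ((c 1 - 1) / 2) - 153 / 100 * δ ^ 2 - ε) * N T (2 * T) ≤
        (({n : ℕ | N 0 T < n ∧ n ≤ N 0 (2 * T) ∧ δ / Real.log T ≤ gap n}.ncard : ℕ) : ℝ) := by
  classical
  obtain ⟨T1, hT1, hlong⟩ := long_main 1 (ε / 6) δ one_pos le_rfl (by linarith) hδ hδ1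
  obtain ⟨C, hC, hN⟩ := N_dyadic
  have hpi := Real.pi_pos
  have hlim := dyadic_tendsto C
  obtain ⟨T2, hT2⟩ := (hlim.eventually_ge_atTop (6 / ε)).exists_forall_of_atTop
  refine ⟨max T1 T2, fun T hT => ?_⟩
  have hTT1 : T1 ≤ T := (le_max_left _ _).trans hT
  have hTT2 : T2 ≤ T := (le_max_right _ _).trans hT
  have hT10 : 10 ≤ T := hT1.trans hTT1
  have hT0 : 0 < T := by linarith
  have hL : 0 < Real.log T := Real.log_pos (by linarith)
  rw [two_mul]
  set a := N 0 T with ha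
  set b := N 0 (T + T) with hb
  set ℓ := δ / Real.log T with hℓ
  have hsp : b = a + N T (T + T) := N_split le_rfl hT0.le (by linarith)
  set Nd : ℝ := ((N T (T + T) : ℕ) : ℝ) with hNd
  have hNd6 : 6 / ε ≤ Nd := (hT2 T hTT2).trans (hN T hT10)
  have h3 : 3 ≤ ε / 2 * Nd := by
    have h4 := mul_le_mul_of_nonneg_left hNd6 (by linarith : 0 ≤ ε / 2)
    have h5 : ε / 2 * (6 / ε) = 3 := by field_simp; norm_num
    linarith
  set Lg := (Ioc a b).filter (fun n => ℓ ≤ gap n) with hLg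
  have hL1 : ({n : ℕ | a < n ∧ n ≤ b ∧ ℓ ≤ gap n}.ncard) = Lg.card := by
    rw [← Set.ncard_coe_finset]
    congr 1
    ext x
    rw [hLg, Set.mem_ofPred_eq, mem_coe, mem_filter, mem_Ioc]
    exact ⟨fun h => ⟨⟨h.1, h.2.1⟩, h.2.2⟩, fun h => ⟨h.1.1, h.1.2, h.2⟩⟩
  rw [hL1]
  have hcls : ∀ r : ℕ, long (cls 3 r) a b ℓ = (Lg.filter (fun n => n ≡ r [MOD 3])).card := by
    intro r
    unfold long
    rw [← Set.ncard_coe_finset]
    congr 1
    ext x
    rw [hLg, Set.mem_ofPred_eq, mem_coe, mem_filter, mem_filter, mem_Ioc]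
    exact ⟨fun h => ⟨⟨⟨h.2.1, h.2.2.1⟩, h.2.2.2⟩, h.1⟩, fun h => ⟨h.2, h.1.1.1, h.1.1.2, h.1.2⟩⟩
  have hcnt : ∀ r : ℕ, count (cls 3 r) a b = ((Ioc a b).filter (fun n => n ≡ r [MOD 3])).card := by
    intro r
    rw [count_fin]
    congr 1
    ext x
    rw [mem_filter, mem_filter]
    exact Iff.rfl
  have hpart : ∀ S : Finset ℕ, S.card = (S.filter (fun n => n ≡ 0 [MOD 3])).card +
      (S.filter (fun n => n ≡ 1 [MOD 3])).card + (S.filter (fun n => n ≡ 2 [MOD 3])).card := by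
    intro S
    rw [card_filter, card_filter, card_filter, card_eq_sum_ones, ← sum_add_distrib, ← sum_add_distrib]
    refine sum_congr rfl fun n _ => ?_
    have h := Nat.mod_lt n (by norm_num : 0 < 3)
    have e0 : (n ≡ 0 [MOD 3]) ↔ n % 3 = 0 := Iff.rfl
    have e1 : (n ≡ 1 [MOD 3]) ↔ n % 3 = 1 := Iff.rfl
    have e2 : (n ≡ 2 [MOD 3]) ↔ n % 3 = 2 := Iff.rfl
    simp only [e0, e1, e2]
    split_ifs <;> omega
  have hr : ∀ r : ℕ, (count (cls 3 r) a b : ℝ) - ((c 1 - 1) / 2 + 51 / 100 * δ ^ 2 + ε / 6) * Nd - 1 ≤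
      long (cls 3 r) a b ℓ := fun r =>
    hlong T hTT1 T (by rw [Real.rpow_one]) le_rfl (cls 3 r) (cls_sparse le_rfl)
  have p1 := hpart (Ioc a b)
  have p2 := hpart Lg
  rw [← hcnt 0, ← hcnt 1, ← hcnt 2, Nat.card_Ioc] at p1
  rw [← hcls 0, ← hcls 1, ← hcls 2] at p2
  have p3 : Nd = (count (cls 3 0) a b : ℝ) + count (cls 3 1) a b + count (cls 3 2) a b := by
    have : N T (T + T) = count (cls 3 0) a b + count (cls 3 1) a b + count (cls 3 2) a b := by omega
    rw [hNd]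
    exact_mod_cast this
  have p4 : (Lg.card : ℝ) = (long (cls 3 0) a b ℓ : ℝ) + long (cls 3 1) a b ℓ + long (cls 3 2) a b ℓ := by
    exact_mod_cast p2
  have r0 := hr 0
  have r1 := hr 1
  have r2 := hr 2
  rw [p4]
  nlinarith

end Pool.Agent.Q32.Gap
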