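import Pool.Agent.Q32.Gap.Half4
import Pool.Agent.Q32.Gap.Zeta2

set_option autoImplicit false

/-!
# The proportion of the short gaps between the ordinates of the zeros of zeta
-/

open Finset MeasureTheory Complex Filter Topology

namespace Pool.Agent.Q32.Gap

open H370 H295SI

/-- the ordinate with number `n`, counted with multiplicity -/
noncomputable def ord (n : ℕ) : ℝ := sInf {t : ℝ | 0 ≤ t ∧ n ≤ N 0 t}

theorem ord_set_bdd (n : ℕ) : BddBelow {t : ℝ | 0 ≤ t ∧ n ≤ N 0 t} := ⟨0, fun _ ht => ht.1⟩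

theorem N_unbounded (n : ℕ) : ∃ t : ℝ, 0 ≤ t ∧ n ≤ N 0 t := by
  obtain ⟨C, hC, hN⟩ := N_dyadic
  have hlim := dyadic_tendsto C
  obtain ⟨T2, hT2⟩ := (hlim.eventually_ge_atTop (n : ℝ)).exists_forall_of_atTop
  set T := max T2 10 with hT
  have h1 := hT2 T (le_max_left _ _)
  have h2 := hN T (le_max_right _ _)
  have h10 : 10 ≤ T := le_max_right _ _
  have h3 : (n : ℝ) ≤ N T (T + T) := h1.trans h2
  refine ⟨T + T, by linarith, ?_⟩
  have h4 := N_split le_rfl (by linarith : (0 : ℝ) ≤ T) (by linarith : T ≤ T + T)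
  have h5 : n ≤ N T (T + T) := by exact_mod_cast h3
  omega

theorem ord_le {n : ℕ} {t : ℝ} (h0 : 0 ≤ t) (h : n ≤ N 0 t) : ord n ≤ t := csInf_le (ord_set_bdd n) ⟨h0, h⟩

theorem lt_of_ord_lt {n : ℕ} {t : ℝ} (h : ord n < t) : n ≤ N 0 t := by
  obtain ⟨s, ⟨_, h2⟩, h3⟩ := exists_lt_of_csInf_lt (N_unbounded n) h
  exact h2.trans (N_mono' h3.le)

theorem le_ord {n : ℕ} {t : ℝ} (h : N 0 t < n) : t ≤ ord n := by
  by_contra hcon
  push Not at hcon
  have := lt_of_ord_lt hcon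
  omega

theorem ord_mono {m n : ℕ} (h : m ≤ n) : ord m ≤ ord n :=
  csInf_le_csInf (ord_set_bdd m) (N_unbounded n) fun _ ht => ⟨ht.1, h.trans ht.2⟩

/-- the measure of the set of the `t` with `N(t) = n` -/
theorem vol_gap {n : ℕ} (hn : 1 ≤ n) : volume {t : ℝ | N 0 t = n} = ENNReal.ofReal (ord (n + 1) - ord n) := by
  have h1 : Set.Ioo (ord n) (ord (n + 1)) ⊆ {t : ℝ | N 0 t = n} := by
    rintro t ⟨a1, a2⟩
    have b1 := lt_of_ord_lt a1
    have ht0 : 0 ≤ t := (le_csInf (N_unbounded n) fun _ h => h.1).trans a1.le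
    have b2 : ¬ (n + 1 ≤ N 0 t) := fun h => absurd (ord_le ht0 h) (not_le.2 a2)
    simp only [Set.mem_ofPred_eq]
    omega
  have h2 : {t : ℝ | N 0 t = n} ⊆ Set.Icc (ord n) (ord (n + 1)) := by
    intro t ht
    simp only [Set.mem_ofPred_eq] at ht
    have ht0 : 0 ≤ t := by
      by_contra hcon
      push Not at hcon
      have := N_neg hcon.le
      omega
    refine ⟨ord_le ht0 (by omega), le_ord (by omega)⟩
  apply le_antisymm
  · refine (measure_mono h2).trans ?_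
    rw [Real.volume_Icc]
  · rw [← Real.volume_Ioo]
    exact measure_mono h1

theorem short_main (lam ε : ℝ) (h0 : 0 < lam) (h1 : lam ≤ 1) (hε : 0 < ε) (hε1 : ε ≤ 1) :
    ∃ d : ℝ, 0 < d ∧ d < 1 ∧ ∃ T0 : ℝ, 10 ≤ T0 ∧ ∀ T : ℝ, T0 ≤ T → ∀ H : ℝ,
      T ^ (1 - d) ≤ H → H ≤ T → H / (2 * Real.pi) * Real.log T ≤ (1 + ε) * N T (T + H) ∧
        min (2 / 3) (gn lam) * (({n : ℕ | N 0 T < n ∧ n ≤ N 0 (T + H) ∧
          ord (n + 1) - ord n ≤ lam * (2 * Real.pi / Real.log T)}.ncard : ℕ) : ℝ) ≤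
          (c 1 - 1 + ε) * N T (T + H) := by
  classical
  obtain ⟨d, hd0, hd1, T0, hT0, hmain⟩ := half_main good_zeta lam ε h0 h1 hε hε1
  refine ⟨d, hd0, hd1, T0, hT0, fun T hT H hH1 hH2 => ?_⟩
  obtain ⟨hA, hB⟩ := hmain T hT H hH1 hH2
  rw [← N_eq] at hA
  refine ⟨hA, ?_⟩
  have hT10 : 10 ≤ T := hT0.trans hT
  have hH0 : 0 ≤ H := (Real.rpow_nonneg (by linarith) _).trans hH1
  have hL0 : 0 < Real.log T := Real.log_pos (by linarith)
  have hpi := Real.pi_pos
  set a := N 0 T with ha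
  set b := N 0 (T + H) with hb
  have hab : b = a + N T (T + H) := N_split le_rfl (by linarith) (by linarith)
  set ℓ := lam * (2 * Real.pi / Real.log T) with hℓ
  have hℓ0 : 0 ≤ ℓ := by positivity
  set Sh := (Ioc a b).filter (fun n => ord (n + 1) - ord n ≤ ℓ) with hSh
  have hcount : {n : ℕ | a < n ∧ n ≤ b ∧ ord (n + 1) - ord n ≤ ℓ}.ncard = Sh.card := by
    rw [← Set.ncard_coe_finset]
    congr 1
    ext x
    rw [hSh, Set.mem_ofPred_eq, mem_coe, mem_filter, mem_Ioc, and_assoc]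
  set S := (Sh.erase b).image (fun n => n - a) with hS
  have hSm : ∀ n ∈ Sh.erase b, a < n ∧ n < b ∧ ord (n + 1) - ord n ≤ ℓ := by
    intro n hn
    rw [mem_erase, hSh, mem_filter, mem_Ioc] at hn
    obtain ⟨h1, ⟨h2, h3⟩, h4⟩ := hn
    exact ⟨h2, by omega, h4⟩
  have hScard : S.card = (Sh.erase b).card := by
    refine card_image_of_injOn ?_
    intro x hx y hy hxy
    have h1 := hSm x hx
    have h2 := hSm y hy
    simp only at hxy
    omega
  have hSh1 : Sh.card ≤ S.card + 1 := by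
    rw [hScard]
    have := pred_card_le_card_erase (s := Sh) (a := b)
    omega
  have hfin := hB S (by
    intro x hx
    rw [hS, mem_image] at hx
    obtain ⟨i, hi, rfl⟩ := hx
    obtain ⟨h2, h3, h4⟩ := hSm i hi
    refine ⟨by omega, ?_, ?_⟩
    · rw [← N_eq]
      omega
    · rw [← gap_set (by linarith) h2 h3, vol_gap (by omega)]
      exact ENNReal.ofReal_le_ofReal h4)
  rw [← N_eq] at hfin
  have hc : c 1 = cMTinv := rfl
  rw [hcount, hc]
  have h6 : (Sh.card : ℝ) ≤ S.card + 1 := by exact_mod_cast hSh1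
  have hg0 : 0 ≤ gn lam := by
    have := K_nonneg h0.le h1
    unfold gn
    split_ifs with c
    · positivity
    · push Not at c
      linarith
  have hm0 : 0 ≤ min (2 / 3) (gn lam) := le_min (by norm_num) hg0
  have hm1 : min (2 / 3) (gn lam) ≤ 2 / 3 := min_le_left _ _
  have h7 := mul_le_mul_of_nonneg_left h6 hm0
  rw [mul_add, mul_one] at h7
  linarith

/-- the long gaps -/
theorem long_of_short (lam k p : ℝ) (h0 : 0 < lam) (h1 : lam ≤ 1) (hk0 : 0 < k) (hk : k ≤ 2 / 3)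
    (hkg : k ≤ gn lam) (hp : 0.3276031 < (1 - p) * k) :
    ∃ d : ℝ, 0 < d ∧ d < 1 ∧ ∃ T0 : ℝ, 10 ≤ T0 ∧ ∀ T : ℝ, T0 ≤ T → ∀ H : ℝ,
      T ^ (1 - d) ≤ H → H ≤ T → H / (2 * Real.pi) * Real.log T ≤ (1 + 0.0001) * N T (T + H) ∧
        p * (N T (T + H) : ℝ) ≤ (({n : ℕ | N 0 T < n ∧ n ≤ N 0 (T + H) ∧
          lam * (2 * Real.pi / Real.log T) < ord (n + 1) - ord n}.ncard : ℕ) : ℝ) := by
  classical
  obtain ⟨d, hd0, hd1, T0, hT0, hmain⟩ := short_main lam 0.0001 h0 h1 (by norm_num) (by norm_num)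
  refine ⟨d, hd0, hd1, T0, hT0, fun T hT H hH1 hH2 => ?_⟩
  obtain ⟨hA, hB⟩ := hmain T hT H hH1 hH2
  refine ⟨hA, ?_⟩
  have hT10 : 10 ≤ T := hT0.trans hT
  have hH0 : 0 ≤ H := (Real.rpow_nonneg (by linarith) _).trans hH1
  set a := N 0 T with ha
  set b := N 0 (T + H) with hb
  have hab : b = a + N T (T + H) := N_split le_rfl (by linarith) (by linarith)
  set ℓ := lam * (2 * Real.pi / Real.log T) with hℓ
  set Sh := (Ioc a b).filter (fun n => ord (n + 1) - ord n ≤ ℓ) with hSh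
  have hcount : {n : ℕ | a < n ∧ n ≤ b ∧ ord (n + 1) - ord n ≤ ℓ}.ncard = Sh.card := by
    rw [← Set.ncard_coe_finset]
    congr 1
    ext x
    rw [hSh, Set.mem_ofPred_eq, mem_coe, mem_filter, mem_Ioc, and_assoc]
  have hcount2 : {n : ℕ | a < n ∧ n ≤ b ∧ ℓ < ord (n + 1) - ord n}.ncard =
      ((Ioc a b).filter (fun n => ¬ ord (n + 1) - ord n ≤ ℓ)).card := by
    rw [← Set.ncard_coe_finset]
    congr 1
    ext x
    rw [Set.mem_ofPred_eq, mem_coe, mem_filter, mem_Ioc, and_assoc, not_le]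
  have hsum : Sh.card + ((Ioc a b).filter (fun n => ¬ ord (n + 1) - ord n ≤ ℓ)).card = N T (T + H) := by
    rw [hSh, card_filter_add_card_filter_not, Nat.card_Ioc]
    omega
  rw [hcount] at hB
  rw [hcount2]
  have hsum' : (Sh.card : ℝ) + ((Ioc a b).filter (fun n => ¬ ord (n + 1) - ord n ≤ ℓ)).card =
      (N T (T + H) : ℝ) := by exact_mod_cast hsum
  set X : ℝ := (N T (T + H) : ℝ) with hX
  have hX0 : 0 ≤ X := by rw [hX]; positivity
  have hc : c 1 ≤ 1.327503 := Expl.cMTinv_num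
  have hkm : k ≤ min (2 / 3) (gn lam) := le_min hk hkg
  have h2 : k * (Sh.card : ℝ) ≤ min (2 / 3) (gn lam) * Sh.card :=
    mul_le_mul_of_nonneg_right hkm (by positivity)
  have h3 : (c 1 - 1 + 0.0001) * X ≤ (1 - p) * k * X := by
    apply mul_le_mul_of_nonneg_right _ hX0
    norm_num at hc hp ⊢
    linarith
  have h4 : k * (Sh.card : ℝ) ≤ k * ((1 - p) * X) := by
    have e : k * ((1 - p) * X) = (1 - p) * k * X := by ring
    rw [e]
    exact (h2.trans hB).trans h3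
  have h5 := le_of_mul_le_mul_left h4 hk0
  linarith

/-- the sum of the gaps -/
theorem sum_gaps {T H : ℝ} (hT : 0 ≤ T) (hH : 0 ≤ H) (A : Finset ℕ)
    (hA : ∀ n ∈ A, N 0 T < n ∧ n < N 0 (T + H)) :
    ∑ n ∈ A, (ord (n + 1) - ord n) ≤ H := by
  classical
  set a := N 0 T with ha
  set b := N 0 (T + H) with hb
  have hnn : ∀ n, 0 ≤ ord (n + 1) - ord n := fun n => by
    have := ord_mono (Nat.le_succ n)
    linarith
  rcases le_or_gt b (a + 1) with h | h
  · have hAe : A = ∅ := by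
      rw [Finset.eq_empty_iff_forall_notMem]
      intro n hn
      have := hA n hn
      omega
    rw [hAe, sum_empty]
    exact hH
  · have h1 : ∑ n ∈ A, (ord (n + 1) - ord n) ≤ ∑ n ∈ Ico (a + 1) b, (ord (n + 1) - ord n) := by
      refine sum_le_sum_of_subset_of_nonneg ?_ fun n _ _ => hnn n
      intro n hn
      have := hA n hn
      rw [mem_Ico]
      omega
    have h2 : ∑ n ∈ Ico (a + 1) b, (ord (n + 1) - ord n) = ord b - ord (a + 1) :=
      sum_Ico_sub ord (by omega)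
    have h3 : ord b ≤ T + H := ord_le (by linarith) le_rfl
    have h4 : T ≤ ord (a + 1) := le_ord (by omega)
    linarith

end Pool.Agent.Q32.Gap
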