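import Pool.Agent.Q32.Gap.Window

set_option autoImplicit false

/-!
# Short gaps between the ordinates with index in a sparse set: intervals
-/

open scoped BigOperators ComplexConjugate
open Finset MeasureTheory Complex

namespace Pool.Agent.Q32.Gap

open H370 H370.A2 H295SI TH803UC TH803CL

/-- **short gaps whose number, counted from the beginning of the interval, is in a sparse set** -/
theorem gaps_main {F : ℂ → ℂ} (hF : GoodL F) (h ε δ : ℝ) (hh0 : 0 < h) (hh1 : h ≤ 1) (hε : 0 < ε)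
    (hδ : 0 < δ) (hδ1 : δ ≤ 9 / 10) :
    ∃ T0 : ℝ, 10 ≤ T0 ∧ ∀ T : ℝ, T0 ≤ T → ∀ H : ℝ, T ^ h ≤ H → H ≤ T →
      ∀ S : Finset ℕ, (∀ a ∈ S, ∀ b ∈ S, a < b → a + 3 ≤ b) →
      (∀ j ∈ S, 1 ≤ j ∧ j ≤ NN F T (T + H) ∧
        volume {t : ℝ | T < t ∧ t < T + H ∧ NN F T t = j} < ENNReal.ofReal (δ / Real.log T)) →
      2 * (S.card : ℝ) ≤ (cc h - 1 + 51 / 50 * δ ^ 2 + ε) * (NN F T (T + H) : ℝ) := by
  classical
  obtain ⟨C, hC, hends⟩ := ends2 hF
  obtain ⟨T0, hT0, hwin⟩ := windows hF h ε (2 * C + 2) hh0 hh1 hε (by positivity)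
  refine ⟨T0, hT0, fun T hT H hH1 hH2 S hsep hS => ?_⟩
  have hT10 : 10 ≤ T := hT0.trans hT
  obtain ⟨g, Λ, U1, U2, hg, hΛ0, hΛL, hL1, hH6, hU1, hU1', hU2, hU2', hκ⟩ := hwin T hT H hH1 hH2
  have hL0 : 0 < Real.log T := by linarith
  have hδ2 : δ ^ 2 ≤ 81 / 100 := by nlinarith
  have hk := hκ (1 - 51 / 50 * δ ^ 2) (by nlinarith) (by nlinarith)
  have he := hends T hT10 H hH6 hH2
  have hT1 : (1 : ℝ) ≤ T := by linarith
  have hU12 : U1 ≤ U2 := by linarith
  set a := NN F T U1 with ha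
  set K := NN F U1 U2 with hK
  have hsplit1 : NN F T U2 = a + K := NN_add hF hT1 hU1 hU12
  have hsplit2 : NN F T (T + H) = NN F T U2 + NN F U2 (T + H) :=
    NN_add hF hT1 (hU1.trans hU12) hU2'
  have hmid : (NN F (T + 2) (T + H - 2) : ℝ) ≤ K := by
    exact_mod_cast NN_mono hF (by linarith : (1 : ℝ) ≤ U1) (by linarith) (by linarith)
  set S1 := S.filter (fun j => a < j ∧ j + 1 ≤ a + K) with hS1
  set S2 := S.filter (fun j => ¬ (a < j ∧ j + 1 ≤ a + K)) with hS2
  have hcard : S.card = S1.card + S2.card := (card_filter_add_card_filter_not _).symm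
  -- the numbers outside the window
  have hS2c : S2.card ≤ a + (NN F T (T + H) - (a + K) + 1) := by
    have hsub : S2 ⊆ Icc 1 a ∪ Icc (a + K) (NN F T (T + H)) := by
      intro j hj
      rw [hS2, mem_filter] at hj
      obtain ⟨hj1, hj2⟩ := hj
      obtain ⟨h1, h2, -⟩ := hS j hj1
      rw [mem_union, mem_Icc, mem_Icc]
      omega
    refine (card_le_card hsub).trans ((card_union_le _ _).trans ?_)
    rw [Nat.card_Icc, Nat.card_Icc]
    omega
  have hS2r : (S2.card : ℝ) ≤ (NN F T (T + H) : ℝ) - K + 1 := by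
    have h1 : S2.card + K ≤ NN F T (T + H) + 1 := by omega
    have h2 : (S2.card : ℝ) + K ≤ NN F T (T + H) + 1 := by exact_mod_cast h1
    linarith
  -- the numbers in the window
  have hadd : ∀ t : ℝ, U1 < t → NN F T t = a + NN F U1 t := fun t ht => NN_add hF hT1 hU1 ht.le
  have hwb := window_bad hF (A := U1) (B := U2) (by linarith) hg hΛ0 hΛL hL1 hδ (by linarith)
    (S1.image (fun j => j - a)) (by
      intro x hx y hy hxy
      rw [mem_image] at hx hy
      obtain ⟨j, hj, rfl⟩ := hx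
      obtain ⟨i, hi, rfl⟩ := hy
      rw [hS1, mem_filter] at hj hi
      have := hsep j hj.1 i hi.1 (by omega)
      omega) (by
      intro x hx
      rw [mem_image] at hx
      obtain ⟨j, hj, rfl⟩ := hx
      rw [hS1, mem_filter] at hj
      obtain ⟨hj1, hj2, hj3⟩ := hj
      refine ⟨by omega, by omega, lt_of_le_of_lt (measure_mono ?_) (hS j hj1).2.2⟩
      rintro t ⟨h1, h2, h3⟩
      refine ⟨by linarith, by linarith, ?_⟩
      rw [hadd t h1, h3]
      omega)
  have hS1c : (S1.image (fun j => j - a)).card = S1.card := by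
    refine card_image_of_injOn ?_
    intro x hx y hy hxy
    rw [mem_coe, hS1, mem_filter] at hx hy
    simp only at hxy
    omega
  rw [hS1c] at hwb
  have hKeq : (NN F U1 U2 : ℝ) = K := rfl
  rw [hKeq] at hk hwb
  have h3 : (S.card : ℝ) = S1.card + S2.card := by exact_mod_cast hcard
  have h4 : (NN F T (T + H) : ℝ) - K ≤ C * Real.log T := by linarith
  rw [h3]
  nlinarith

end Pool.Agent.Q32.Gap
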