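import Pool.Agent.Q32.Gap.Main
import Pool.Agent.H370R2.DirGood
import Pool.Agent.H370R2.Expl3
import Pool.Agent.H370R2.Dyadic
import Pool.Agent.W69.DZ.Zero

set_option autoImplicit false

/-!
# Short gaps between the ordinates of the zeros of zeta with index in a sparse set
-/

open Finset MeasureTheory Complex Filter Topology

namespace Pool.Agent.Q32.Gap

open H370 H295SI

/-- the nontrivial zeros of zeta with ordinate in `(T₁, T₂]` -/
def zeros (T₁ T₂ : ℝ) : Set ℂ :=
  {s : ℂ | riemannZeta s = 0 ∧ 0 < s.re ∧ s.re < 1 ∧ T₁ < s.im ∧ s.im ≤ T₂}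

/-- the number of nontrivial zeros with ordinate in `(T₁, T₂]`, counted with multiplicity -/
noncomputable def N (T₁ T₂ : ℝ) : ℕ := ∑ᶠ s ∈ zeros T₁ T₂, analyticOrderNatAt riemannZeta s

/-- the constant `c(h) = h/2 + cot(h/√2)/√2`; `c(1) = 1.3274...` -/
noncomputable def c (h : ℝ) : ℝ := h / 2 + Real.cot (h / Real.sqrt 2) / Real.sqrt 2

/-- the length of the gap with number `n`, the set of the `t` with exactly `n` zeros up to height `t` -/
noncomputable def gap (n : ℕ) : ℝ := (volume {t : ℝ | N 0 t = n}).toReal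

theorem zeros_eq (T₁ T₂ : ℝ) : zeros T₁ T₂ = zset riemannZeta T₁ T₂ := by
  ext s
  simp only [zeros, zset, Set.mem_ofPred_eq]
  tauto

theorem zeros_finite (T₁ T₂ : ℝ) (h : 0 ≤ T₁) : (zeros T₁ T₂).Finite := by
  rw [zeros_eq]
  exact (zeta_zeros_finite T₂).subset (zset_mono _ h le_rfl)

theorem N_eq (T₁ T₂ : ℝ) : N T₁ T₂ = NN riemannZeta T₁ T₂ := by
  unfold N NN
  rw [zeros_eq]
  rfl

theorem N_split {a b c' : ℝ} (ha : 0 ≤ a) (hab : a ≤ b) (hbc : b ≤ c') : N a c' = N a b + N b c' := by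
  unfold N
  rw [← finsum_mem_union ?_ (zeros_finite a b ha) (zeros_finite b c' (ha.trans hab))]
  · have hset : zeros a c' = zeros a b ∪ zeros b c' := by
      ext s
      simp only [zeros, Set.mem_ofPred_eq, Set.mem_union]
      constructor
      · rintro ⟨a1, a2, a3, a4, a5⟩
        rcases le_or_gt s.im b with h1 | h1
        · exact Or.inl ⟨a1, a2, a3, a4, h1⟩
        · exact Or.inr ⟨a1, a2, a3, h1, a5⟩
      · rintro (⟨a1, a2, a3, a4, a5⟩ | ⟨a1, a2, a3, a4, a5⟩)
        · exact ⟨a1, a2, a3, a4, a5.trans hbc⟩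
        · exact ⟨a1, a2, a3, hab.trans_lt a4, a5⟩
    rw [hset]
  · rw [Set.disjoint_left]
    rintro s ⟨-, -, -, -, h1⟩ ⟨-, -, -, h2, -⟩
    linarith

theorem N_mono {s t : ℝ} (hs : 0 ≤ s) (h : s ≤ t) : N 0 s ≤ N 0 t := by
  rw [N_split le_rfl hs h]
  exact Nat.le_add_right _ _

theorem N_neg {t : ℝ} (ht : t ≤ 0) : N 0 t = 0 := by
  have h : zeros 0 t = ∅ := by
    rw [Set.eq_empty_iff_forall_notMem]
    rintro s ⟨-, -, -, h1, h2⟩
    linarith
  unfold N
  rw [h]
  simp

theorem N_mono' {s t : ℝ} (h : s ≤ t) : N 0 s ≤ N 0 t := by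
  rcases le_or_gt s 0 with hs | hs
  · rw [N_neg hs]
    exact Nat.zero_le _
  · exact N_mono hs.le h

/-- the gaps inside an interval -/
theorem gap_set {T H : ℝ} (hT : 0 ≤ T) {n : ℕ} (h1 : N 0 T < n) (h2 : n < N 0 (T + H)) :
    {t : ℝ | N 0 t = n} = {t : ℝ | T < t ∧ t < T + H ∧ NN riemannZeta T t = n - N 0 T} := by
  ext t
  simp only [Set.mem_ofPred_eq]
  constructor
  · intro h
    have a1 : T < t := by
      by_contra hcon
      push Not at hcon
      have := N_mono' hcon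
      omega
    have a2 : t < T + H := by
      by_contra hcon
      push Not at hcon
      have := N_mono' hcon
      omega
    refine ⟨a1, a2, ?_⟩
    rw [← N_eq]
    have := N_split le_rfl hT a1.le
    omega
  · rintro ⟨a1, a2, a3⟩
    rw [← N_eq] at a3
    have := N_split le_rfl hT a1.le
    omega

/-- the elements of `A` in `(m, n]` -/
noncomputable def count (A : Set ℕ) (m n : ℕ) : ℕ := (A ∩ Set.Ioc m n).ncard

/-- the elements `n` of `A` in `(m, m']` such that the gap with number `n` has length at least `ℓ` -/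
noncomputable def long (A : Set ℕ) (m m' : ℕ) (ℓ : ℝ) : ℕ := {n : ℕ | n ∈ A ∧ m < n ∧ n ≤ m' ∧ ℓ ≤ gap n}.ncard

/-- **sparse sets of indices** -/
theorem long_main (h ε δ : ℝ) (hh0 : 0 < h) (hh1 : h ≤ 1) (hε : 0 < ε) (hδ : 0 < δ) (hδ1 : δ ≤ 9 / 10) :
    ∃ T0 : ℝ, 10 ≤ T0 ∧ ∀ T : ℝ, T0 ≤ T → ∀ H : ℝ, T ^ h ≤ H → H ≤ T → ∀ A : Set ℕ,
      (∀ n ∈ A, n + 1 ∉ A ∧ n + 2 ∉ A) →
      (count A (N 0 T) (N 0 (T + H)) : ℝ) - ((c h - 1) / 2 + 51 / 100 * δ ^ 2 + ε) * N T (T + H) - 1 ≤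
        long A (N 0 T) (N 0 (T + H)) (δ / Real.log T) := by
  classical
  obtain ⟨T0, hT0, hmain⟩ := gaps_main good_zeta h (2 * ε) δ hh0 hh1 (by linarith) hδ hδ1
  refine ⟨T0, hT0, fun T hT H hH1 hH2 A hA => ?_⟩
  have hT10 : 10 ≤ T := hT0.trans hT
  have hH0 : 0 ≤ H := (Real.rpow_nonneg (by linarith) _).trans hH1
  have hL0 : 0 < Real.log T := Real.log_pos (by linarith)
  set a := N 0 T with ha
  set b := N 0 (T + H) with hb
  have hab : b = a + N T (T + H) := N_split le_rfl (by linarith) (by linarith)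
  set W := (Ioc a b).filter (fun n => n ∈ A) with hW
  have hcount : count A a b = W.card := by
    unfold count
    rw [← Set.ncard_coe_finset]
    congr 1
    ext x
    rw [hW, Set.mem_inter_iff, Set.mem_Ioc, mem_coe, mem_filter, mem_Ioc]
    exact and_comm
  set Lg := W.filter (fun n => δ / Real.log T ≤ gap n) with hLg
  set Sh := W.filter (fun n => ¬ δ / Real.log T ≤ gap n) with hSh
  have hlong : long A a b (δ / Real.log T) = Lg.card := by
    unfold long
    rw [← Set.ncard_coe_finset]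
    congr 1
    ext x
    rw [hLg, hW, Set.mem_ofPred_eq, mem_coe, mem_filter, mem_filter, mem_Ioc]
    exact ⟨fun h => ⟨⟨⟨h.2.1, h.2.2.1⟩, h.1⟩, h.2.2.2⟩, fun h => ⟨h.1.2, h.1.1.1, h.1.1.2, h.2⟩⟩
  have hsum : W.card = Lg.card + Sh.card := (card_filter_add_card_filter_not _).symm
  set S := (Sh.erase b).image (fun n => n - a) with hS
  have hSm : ∀ n ∈ Sh.erase b, n ∈ A ∧ a < n ∧ n < b ∧ gap n < δ / Real.log T := by
    intro n hn
    rw [mem_erase, hSh, mem_filter, hW, mem_filter, mem_Ioc, not_le] at hn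
    obtain ⟨h1, ⟨⟨h2, h3⟩, h4⟩, h5⟩ := hn
    exact ⟨h4, h2, by omega, h5⟩
  have hScard : S.card = (Sh.erase b).card := by
    refine card_image_of_injOn ?_
    intro x hx y hy hxy
    have h1 := hSm x hx
    have h2 := hSm y hy
    simp only at hxy
    omega
  have hSh1 : Sh.card ≤ S.card + 1 := by
    rw [hScard]
    have := pred_card_le_card_erase (s := Sh) (a := b)
    omega
  have hfin := hmain T hT H hH1 hH2 S (by
    intro x hx y hy hxy
    rw [hS, mem_image] at hx hy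
    obtain ⟨i, hi, rfl⟩ := hx
    obtain ⟨j, hj, rfl⟩ := hy
    have h1 := hSm i hi
    have h2 := hSm j hj
    have h3 := hA i h1.1
    by_contra hcon
    push Not at hcon
    have h4 : j = i + 1 ∨ j = i + 2 := by omega
    rcases h4 with h4 | h4
    · exact h3.1 (h4 ▸ h2.1)
    · exact h3.2 (h4 ▸ h2.1)) (by
    intro x hx
    rw [hS, mem_image] at hx
    obtain ⟨i, hi, rfl⟩ := hx
    obtain ⟨h1, h2, h3, h4⟩ := hSm i hi
    refine ⟨by omega, ?_, ?_⟩
    · rw [← N_eq]
      omega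
    · rw [← gap_set (by linarith) h2 h3]
      have hne : volume {t : ℝ | N 0 t = i} ≠ ⊤ := by
        refine ne_top_of_le_ne_top ?_ (measure_mono (t := Set.Icc T (T + H)) ?_)
        · rw [Real.volume_Icc]
          exact ENNReal.ofReal_ne_top
        · rw [gap_set (by linarith) h2 h3]
          rintro t ⟨b1, b2, -⟩
          exact ⟨b1.le, b2.le⟩
      rw [ENNReal.lt_ofReal_iff_toReal_lt hne]
      exact h4)
  rw [← N_eq] at hfin
  have hc : cc h = c h := rfl
  rw [hc] at hfin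
  rw [hcount, hlong]
  have h5 : (W.card : ℝ) = Lg.card + Sh.card := by exact_mod_cast hsum
  have h6 : (Sh.card : ℝ) ≤ S.card + 1 := by exact_mod_cast hSh1
  rw [h5]
  linarith

end Pool.Agent.Q32.Gap
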